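import Pool.Agent.TTR.Tm

/-!
# Two-trees (MP_c7cb83_co), module Cb: from a graph on `Fin m` to the data `ρ`, `σ`, `y`

PLAN.  Let `a v`, `b v` (`v ≥ 2`) be the two smaller neighbours of `v` (choice from `h2`).  For `v ≥ 3` let `ρ v` be the one of `a v`, `b v`
for which the edge `v`, `ρ v` has a common neighbour larger than `v` (at most one of them by `hh`; if there is none take `a v`), `σ v` the other
one.  `ρ 0 = 1`, `σ 0 = 2`, `ρ 1 = 2`, `σ 1 = 0`, `ρ 2 = 0`, `σ 2 = 1`.  For `v ≥ 3` the pair `{a v, b v}` is an edge with the common larger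
neighbour `v`; if its larger vertex `c` is `≥ 3`, the smaller vertex is a smaller neighbour of `c` and the edge has the larger common neighbour
`v`, so it is `ρ c`: take `y v = c`.  If both are `≤ 2`, take `y v` = the vertex with `ρ (y v)` = the other one (cyclic order).
For `v ≥ m` put `y v = 0`, `ρ v = 0`, `σ v = 1`.
-/

set_option autoImplicit false

namespace Pool.Agent.TTR

open Finset

private theorem cb_nat {m : ℕ} (hm : 3 ≤ m) (A : ℕ → ℕ → Prop) (hs : ∀ u v, A u v → A v u)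
    (hi : ∀ u, ¬ A u u) (h01 : A 0 1) (a b : ℕ → ℕ)
    (hab : ∀ v, 2 ≤ v → v < m → a v < v ∧ b v < v ∧ A (a v) (b v) ∧
      ∀ u < v, A v u ↔ u = a v ∨ u = b v)
    (hh : ∀ v, 3 ≤ v → v < m → ∀ x z, x < v → z < v → x ≠ z → A v x → A v z →
      (∀ w, w < m → v < w → ¬ (A w v ∧ A w x)) ∨ ∀ w, w < m → v < w → ¬ (A w v ∧ A w z)) :
    ∃ ρ σ y : ℕ → ℕ, TT ρ σ y ∧ ∀ u v, u < m → v < m → (A u v ↔ Lk ρ σ u v) := by
  classical
  have hne : ∀ v, 2 ≤ v → v < m → a v ≠ b v := by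
    intro v hv hvm he
    have h1 := (hab v hv hvm).2.2.1
    rw [he] at h1
    exact hi _ h1
  have hAa : ∀ v, 2 ≤ v → v < m → A v (a v) := fun v hv hvm =>
    ((hab v hv hvm).2.2.2 _ (hab v hv hvm).1).2 (Or.inl rfl)
  have hAb : ∀ v, 2 ≤ v → v < m → A v (b v) := fun v hv hvm =>
    ((hab v hv hvm).2.2.2 _ (hab v hv hvm).2.1).2 (Or.inr rfl)
  -- the two smaller neighbours of the first triangle
  have h20 : A 2 0 ∧ A 2 1 := by
    obtain ⟨h1, h2, -, h4⟩ := hab 2 le_rfl (by omega)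
    have h5 := hne 2 le_rfl (by omega)
    exact ⟨(h4 0 (by omega)).2 (by omega), (h4 1 (by omega)).2 (by omega)⟩
  -- existence of `ρ`, `σ`
  obtain ⟨ρ, σ, r0, r1, r2, s0, s1, s2, hrs, hF, hbig⟩ : ∃ ρ σ : ℕ → ℕ, ρ 0 = 1 ∧ ρ 1 = 2 ∧ ρ 2 = 0 ∧
      σ 0 = 2 ∧ σ 1 = 0 ∧ σ 2 = 1 ∧
      (∀ v, 3 ≤ v → v < m → (ρ v = a v ∧ σ v = b v) ∨ (ρ v = b v ∧ σ v = a v)) ∧
      (∀ v w x, 3 ≤ v → v < w → w < m → A w v → A w x → x < v → ρ v = x) ∧
      ∀ v, 3 ≤ v → m ≤ v → ρ v = 0 ∧ σ v = 1 := by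
    let P : ℕ → Prop := fun v => ∃ w, v < w ∧ w < m ∧ A w v ∧ A w (b v)
    refine ⟨fun v => if v = 0 then 1 else if v = 1 then 2 else if v = 2 then 0 else
        if v < m then (if P v then b v else a v) else 0,
      fun v => if v = 0 then 2 else if v = 1 then 0 else if v = 2 then 1 else
        if v < m then (if P v then a v else b v) else 1, rfl, rfl, rfl, rfl, rfl, rfl, ?_, ?_, ?_⟩
    · intro v hv hvm
      have e0 : v ≠ 0 := by omega
      have e1 : v ≠ 1 := by omega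
      have e2 : v ≠ 2 := by omega
      simp only [if_neg e0, if_neg e1, if_neg e2, if_pos hvm]
      by_cases hP : P v
      · right
        simp only [if_pos hP, and_self]
      · left
        simp only [if_neg hP, and_self]
    · intro v w x hv hvw hwm h1 h2 hxv
      have hvm : v < m := by omega
      have e0 : v ≠ 0 := by omega
      have e1 : v ≠ 1 := by omega
      have e2 : v ≠ 2 := by omega
      simp only [if_neg e0, if_neg e1, if_neg e2, if_pos hvm]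
      obtain ⟨w1, w2, w3, w4⟩ := hab w (by omega) hwm
      have h3 := (w4 v hvw).1 h1
      have h4 := (w4 x (by omega)).1 h2
      have hvx : v ≠ x := by omega
      have hA : A v x := by
        rcases h3 with h3 | h3
        · rcases h4 with h4 | h4
          · exact absurd (h3.trans h4.symm) hvx
          · rw [h3, h4]
            exact w3
        · rcases h4 with h4 | h4
          · rw [h3, h4]
            exact hs _ _ w3
          · exact absurd (h3.trans h4.symm) hvx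
      obtain ⟨v1, v2, v3, v4⟩ := hab v (by omega) hvm
      by_cases hP : P v
      · rw [if_pos hP]
        rcases (v4 x hxv).1 hA with h5 | h5
        · exfalso
          obtain ⟨w', g1, g2, g3, g4⟩ := hP
          rcases hh v hv hvm (a v) (b v) v1 v2 (hne v (by omega) hvm) (hAa v (by omega) hvm)
            (hAb v (by omega) hvm) with h6 | h6
          · exact h6 w hwm hvw ⟨h1, h5 ▸ h2⟩
          · exact h6 w' g2 g1 ⟨g3, g4⟩
        · exact h5.symm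
      · rw [if_neg hP]
        rcases (v4 x hxv).1 hA with h5 | h5
        · exact h5.symm
        · exact absurd ⟨w, hvw, hwm, h1, h5 ▸ h2⟩ hP
    · intro v hv hvm
      have e0 : v ≠ 0 := by omega
      have e1 : v ≠ 1 := by omega
      have e2 : v ≠ 2 := by omega
      have e3 : ¬ v < m := by omega
      simp only [if_neg e0, if_neg e1, if_neg e2, if_neg e3, and_self]
  -- the vertex `y v`
  have hy : ∀ v, 3 ≤ v → ∃ y, y < v ∧
      ((ρ v = y ∧ σ v = ρ y) ∨ (ρ v = ρ y ∧ σ v = y)) := by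
    intro v hv
    rcases Nat.lt_or_ge v m with hvm | hvm
    · obtain ⟨v1, v2, v3, v4⟩ := hab v (by omega) hvm
      have h1 := hne v (by omega) hvm
      have hAa' := hAa v (by omega) hvm
      have hAb' := hAb v (by omega) hvm
      -- it suffices to find the pair
      have suf : ∀ y, y < v → ((a v = y ∧ b v = ρ y) ∨ (b v = y ∧ a v = ρ y)) → ∃ y, y < v ∧
          ((ρ v = y ∧ σ v = ρ y) ∨ (ρ v = ρ y ∧ σ v = y)) := by
        intro y h2 h3
        refine ⟨y, h2, ?_⟩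
        rcases hrs v hv hvm with ⟨h4, h5⟩ | ⟨h4, h5⟩
        · rcases h3 with ⟨h6, h7⟩ | ⟨h6, h7⟩
          · left
            exact ⟨h4.trans h6, h5.trans h7⟩
          · right
            exact ⟨h4.trans h7, h5.trans h6⟩
        · rcases h3 with ⟨h6, h7⟩ | ⟨h6, h7⟩
          · right
            exact ⟨h4.trans h7, h5.trans h6⟩
          · left
            exact ⟨h4.trans h6, h5.trans h7⟩
      rcases Nat.lt_or_ge (a v) (b v) with h2 | h2
      · rcases Nat.lt_or_ge (b v) 3 with h3 | h3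
        · have h4 : (a v = 0 ∧ b v = 1) ∨ (a v = 0 ∧ b v = 2) ∨ (a v = 1 ∧ b v = 2) := by omega
          rcases h4 with ⟨h4, h5⟩ | ⟨h4, h5⟩ | ⟨h4, h5⟩
          · exact suf 0 (by omega) (Or.inl ⟨h4, h5.trans r0.symm⟩)
          · exact suf 2 (by omega) (Or.inr ⟨h5, h4.trans r2.symm⟩)
          · exact suf 1 (by omega) (Or.inl ⟨h4, h5.trans r1.symm⟩)
        · have h4 := hF (b v) v (a v) h3 v2 hvm hAb' hAa' h2
          exact suf (b v) v2 (Or.inr ⟨rfl, h4.symm⟩)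
      · rcases Nat.lt_or_ge (a v) 3 with h3 | h3
        · have h4 : (b v = 0 ∧ a v = 1) ∨ (b v = 0 ∧ a v = 2) ∨ (b v = 1 ∧ a v = 2) := by omega
          rcases h4 with ⟨h4, h5⟩ | ⟨h4, h5⟩ | ⟨h4, h5⟩
          · exact suf 0 (by omega) (Or.inr ⟨h4, h5.trans r0.symm⟩)
          · exact suf 2 (by omega) (Or.inl ⟨h5, h4.trans r2.symm⟩)
          · exact suf 1 (by omega) (Or.inr ⟨h4, h5.trans r1.symm⟩)
        · have h4 := hF (a v) v (b v) h3 v1 hvm hAa' hAb' (by omega)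
          exact suf (a v) v1 (Or.inl ⟨rfl, h4.symm⟩)
    · obtain ⟨h1, h2⟩ := hbig v hv hvm
      exact ⟨0, by omega, Or.inl ⟨h1, h2.trans r0.symm⟩⟩
  have hy' : ∀ v, ∃ y, 3 ≤ v → y < v ∧
      ((ρ v = y ∧ σ v = ρ y) ∨ (ρ v = ρ y ∧ σ v = y)) := by
    intro v
    by_cases hv : 3 ≤ v
    · obtain ⟨y, h1⟩ := hy v hv
      exact ⟨y, fun _ => h1⟩
    · exact ⟨0, fun h => absurd h hv⟩
  choose y hy1 using hy'
  have hTT : TT ρ σ y := ⟨r0, s0, r1, s1, r2, s2, fun v hv => (hy1 v hv).1, fun v hv => (hy1 v hv).2⟩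
  refine ⟨ρ, σ, y, hTT, ?_⟩
  -- adjacency to a smaller vertex
  have hsm : ∀ u v, u < m → v < u → (A u v ↔ v = ρ u ∨ v = σ u) := by
    intro u v hu hvu
    rcases Nat.lt_or_ge u 3 with h1 | h1
    · have h2 : (u = 1 ∧ v = 0) ∨ (u = 2 ∧ v = 0) ∨ (u = 2 ∧ v = 1) := by omega
      rcases h2 with ⟨rfl, rfl⟩ | ⟨rfl, rfl⟩ | ⟨rfl, rfl⟩
      · exact ⟨fun _ => Or.inr s1.symm, fun _ => hs _ _ h01⟩
      · exact ⟨fun _ => Or.inl r2.symm, fun _ => h20.1⟩
      · exact ⟨fun _ => Or.inr s2.symm, fun _ => h20.2⟩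
    · obtain ⟨u1, u2, u3, u4⟩ := hab u (by omega) hu
      rw [u4 v hvu]
      rcases hrs u h1 hu with ⟨h4, h5⟩ | ⟨h4, h5⟩
      · rw [h4, h5]
      · rw [h4, h5]
        exact Or.comm
  intro u v hu hv
  unfold Lk
  rcases Nat.lt_trichotomy v u with h1 | h1 | h1
  · rw [hsm u v hu h1]
    constructor
    · rintro (h2 | h2)
      · exact Or.inl h2
      · exact Or.inr (Or.inl h2)
    · rintro (h2 | h2 | ⟨h3, h2⟩)
      · exact Or.inl h2
      · exact Or.inr h2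
      · exfalso
        obtain ⟨h4, h5⟩ := hTT.rlt h3
        omega
  · subst h1
    refine ⟨fun h => absurd h (hi _), fun h => ?_⟩
    exfalso
    rcases Nat.lt_or_ge v 3 with h2 | h2
    · have h3 : v = 0 ∨ v = 1 ∨ v = 2 := by omega
      rcases h3 with rfl | rfl | rfl
      · rw [r0, s0] at h; omega
      · rw [r1, s1] at h; omega
      · rw [r2, s2] at h; omega
    · obtain ⟨h4, h5⟩ := hTT.rlt h2
      omega
  · have h2 : A u v ↔ A v u := ⟨hs _ _, hs _ _⟩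
    rw [h2, hsm v u hv h1]
    rcases Nat.lt_or_ge v 3 with h3 | h3
    · have h4 : (u = 0 ∧ v = 1) ∨ (u = 0 ∧ v = 2) ∨ (u = 1 ∧ v = 2) := by omega
      rcases h4 with ⟨rfl, rfl⟩ | ⟨rfl, rfl⟩ | ⟨rfl, rfl⟩
      · rw [r0, s0, r1, s1]; omega
      · rw [r0, s0, r2, s2]; omega
      · rw [r1, s1, r2, s2]; omega
    · obtain ⟨h4, h5⟩ := hTT.bd u
      constructor
      · rintro (h6 | h6)
        · exact Or.inr (Or.inr ⟨h3, Or.inl h6.symm⟩)
        · exact Or.inr (Or.inr ⟨h3, Or.inr h6.symm⟩)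
      · rintro (h6 | h6 | ⟨-, h6 | h6⟩)
        · omega
        · omega
        · exact Or.inl h6.symm
        · exact Or.inr h6.symm

theorem exists_tt {m : ℕ} (hm : 3 ≤ m) (D : SimpleGraph (Fin m))
    (h1 : ∀ u v : Fin m, (u : ℕ) = 0 → (v : ℕ) = 1 → D.Adj u v)
    (h2 : ∀ v : Fin m, 2 ≤ (v : ℕ) → ∃ a b : Fin m, a < v ∧ b < v ∧ D.Adj a b ∧
      ∀ u < v, D.Adj v u ↔ u = a ∨ u = b)
    (hh : ∀ v : Fin m, 3 ≤ (v : ℕ) → ∀ a b : Fin m, a < v → b < v → a ≠ b → D.Adj v a → D.Adj v b →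
      (∀ w, v < w → ¬ (D.Adj w v ∧ D.Adj w a)) ∨ ∀ w, v < w → ¬ (D.Adj w v ∧ D.Adj w b)) :
    ∃ ρ σ y : ℕ → ℕ, TT ρ σ y ∧ ∀ u v : Fin m, D.Adj u v ↔ Lk ρ σ u v := by
  classical
  let A : ℕ → ℕ → Prop := fun u v => ∃ (hu : u < m) (hv : v < m), D.Adj ⟨u, hu⟩ ⟨v, hv⟩
  have hA : ∀ u v : Fin m, D.Adj u v ↔ A u v := fun u v =>
    ⟨fun h => ⟨u.2, v.2, h⟩, fun ⟨_, _, h⟩ => h⟩
  have hab : ∀ v : ℕ, ∃ p : ℕ × ℕ, 2 ≤ v → v < m → p.1 < v ∧ p.2 < v ∧ A p.1 p.2 ∧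
      ∀ u < v, A v u ↔ u = p.1 ∨ u = p.2 := by
    intro v
    by_cases hv : 2 ≤ v ∧ v < m
    · obtain ⟨a, b, ha, hb, hab, hc⟩ := h2 ⟨v, hv.2⟩ hv.1
      refine ⟨((a : ℕ), (b : ℕ)), fun _ _ => ⟨Fin.lt_def.1 ha, Fin.lt_def.1 hb, (hA a b).1 hab,
        fun u hu => ?_⟩⟩
      have hum : u < m := lt_trans hu hv.2
      have h3 := hc ⟨u, hum⟩ (Fin.lt_def.2 hu)
      have h4 := hA ⟨v, hv.2⟩ ⟨u, hum⟩
      rw [← h4, h3, Fin.ext_iff, Fin.ext_iff]
    · exact ⟨(0, 0), fun h3 h4 => absurd ⟨h3, h4⟩ hv⟩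
  choose p hp using hab
  obtain ⟨ρ, σ, y, hT, hL⟩ := cb_nat hm A (fun u v ⟨hu, hv, h⟩ => ⟨hv, hu, h.symm⟩)
    (fun u ⟨_, _, h⟩ => D.ne_of_adj h rfl)
    ⟨by omega, by omega, h1 ⟨0, by omega⟩ ⟨1, by omega⟩ rfl rfl⟩ (fun v => (p v).1)
    (fun v => (p v).2) hp (by
      intro v hv hvm x z hx hz hxz hvx hvz
      obtain ⟨_, hxm, hvx'⟩ := hvx
      obtain ⟨_, hzm, hvz'⟩ := hvz
      rcases hh ⟨v, hvm⟩ hv ⟨x, hxm⟩ ⟨z, hzm⟩ (Fin.lt_def.2 hx) (Fin.lt_def.2 hz)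
        (fun h => hxz (congrArg Fin.val h)) hvx' hvz' with h5 | h5
      · left
        rintro w hwm hvw ⟨⟨_, _, h6⟩, ⟨_, _, h7⟩⟩
        exact h5 ⟨w, hwm⟩ (Fin.lt_def.2 hvw) ⟨h6, h7⟩
      · right
        rintro w hwm hvw ⟨⟨_, _, h6⟩, ⟨_, _, h7⟩⟩
        exact h5 ⟨w, hwm⟩ (Fin.lt_def.2 hvw) ⟨h6, h7⟩)
  refine ⟨ρ, σ, y, hT, fun u v => ?_⟩
  rw [hA u v]
  exact hL u v u.2 v.2

end Pool.Agent.TTR
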