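import Pool.Agent.FAN.Gb

/-!
# Two-trees (MP_c7cb83_co), module Eb: greedy extension of the embedding of the core

PLAN.  As `emb_close` of `FAN/Ga` (and its private lemmas), keeping `f u = f0 u` for `u ∈ S`: a vertex `v ∉ S` with two earlier neighbours
`x ≠ y` which are not adjacent is chosen in `nbh T (f0 x) ∩ nbh T (f0 y)`.
-/

set_option autoImplicit false

namespace Pool.Agent.TTR

open Finset Pool.Agent.FAN

variable {n k : ℕ}

theorem emb_close2 {T : Finset (Finset (Fin n))} {G : SimpleGraph (Fin k)} {S : Finset (Fin k)}
    {f0 : Fin k → Fin n} (hE : Emb T G S f0) (hK : ∀ a b, (lk T a b).card = 0 ∨ k ≤ (lk T a b).card)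
    (hT : ∃ a b, (lk T a b).Nonempty)
    (h : ∀ v ∉ S, ∀ x y, G.Adj v x → G.Adj v y → (x ∈ S ∨ x < v) → (y ∈ S ∨ y < v) → x ≠ y →
      G.Adj x y ∨ (x ∈ S ∧ y ∈ S ∧ k ≤ (nbh T (f0 x) ∩ nbh T (f0 y)).card))
    (h3 : ∀ v ∉ S, ∀ x y w, G.Adj v x → G.Adj v y → G.Adj v w → (x ∈ S ∨ x < v) → (y ∈ S ∨ y < v) →
      (w ∈ S ∨ w < v) → x = y ∨ x = w ∨ y = w) :
    ∃ f, Emb T G univ f := by
  have hbig : ∀ a b, (lk T a b).Nonempty → k ≤ (lk T a b).card := by
    intro a b hab
    rcases hK a b with h1 | h1
    · rw [Finset.card_eq_zero] at h1
      rw [h1] at hab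
      exact (Finset.not_nonempty_empty hab).elim
    · exact h1
  have hnb : ∀ a b, ∀ x ∈ lk T a b, (nbh T x).Nonempty := by
    intro a b x hx
    have h1 := (Finset.mem_inter.1 (lk_sub T a b hx)).1
    exact ⟨a, nbh_comm.1 h1⟩
  have key : ∀ j ≤ k, ∃ f, Emb T G (univ.filter (fun v : Fin k => v ∈ S ∨ (v : ℕ) < j)) f ∧
      ∀ u ∈ S, f u = f0 u := by
    intro j
    induction j with
    | zero =>
      intro _
      refine ⟨f0, ?_, fun u _ => rfl⟩
      have h1 : (univ.filter (fun v : Fin k => v ∈ S ∨ (v : ℕ) < 0)) = S := by
        ext v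
        simp
      rw [h1]
      exact hE
    | succ j ih =>
      intro hj
      obtain ⟨f, hf, hfS⟩ := ih (by omega)
      set P := univ.filter (fun v : Fin k => v ∈ S ∨ (v : ℕ) < j) with hP
      have memP : ∀ u : Fin k, u ∈ P ↔ u ∈ S ∨ (u : ℕ) < j := by
        intro u
        rw [hP, Finset.mem_filter]
        exact ⟨fun h => h.2, fun h => ⟨Finset.mem_univ _, h⟩⟩
      let v : Fin k := ⟨j, hj⟩
      by_cases hvS : v ∈ S
      · refine ⟨f, ?_, hfS⟩
        have h1 : (univ.filter (fun w : Fin k => w ∈ S ∨ (w : ℕ) < j + 1)) = P := by
          ext w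
          rw [memP, Finset.mem_filter]
          constructor
          · rintro ⟨-, h2 | h2⟩
            · exact Or.inl h2
            · by_cases h3 : (w : ℕ) = j
              · left
                have h4 : w = v := Fin.ext h3
                rw [h4]
                exact hvS
              · right
                omega
          · intro h2
            refine ⟨Finset.mem_univ _, ?_⟩
            rcases h2 with h2 | h2
            · exact Or.inl h2
            · right
              omega
        rw [h1]
        exact hf
      · have hvP : v ∉ P := by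
          rw [memP]
          rintro (h2 | h2)
          · exact hvS h2
          · exact lt_irrefl _ h2
        have h1 : (univ.filter (fun w : Fin k => w ∈ S ∨ (w : ℕ) < j + 1)) = insert v P := by
          ext w
          rw [Finset.mem_insert, memP, Finset.mem_filter]
          constructor
          · rintro ⟨-, h2 | h2⟩
            · exact Or.inr (Or.inl h2)
            · by_cases h3 : (w : ℕ) = j
              · left
                exact Fin.ext h3
              · right
                right
                omega
          · intro h2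
            refine ⟨Finset.mem_univ _, ?_⟩
            rcases h2 with h2 | h2 | h2
            · right
              rw [h2]
              exact Nat.lt_succ_self j
            · exact Or.inl h2
            · right
              omega
        have hlt : ∀ u ∈ P, u ∈ S ∨ u < v := by
          intro u hu
          rcases (memP u).1 hu with h2 | h2
          · exact Or.inl h2
          · exact Or.inr (Fin.lt_def.2 h2)
        rw [h1]
        have fin : ∀ X : Finset (Fin n), k ≤ X.card → (∀ x ∈ X, (nbh T x).Nonempty) →
            (∀ x ∈ X, ∀ u ∈ P, G.Adj v u → (lk T (f u) x).Nonempty) →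
            ∃ f, Emb T G (insert v P) f ∧ ∀ u ∈ S, f u = f0 u := by
          intro X hX1 hX2 hX3
          obtain ⟨x, -, hx⟩ := emb_add hf hvP hX1 hX2 hX3
          refine ⟨_, hx, fun u hu => ?_⟩
          have huv : u ≠ v := by
            intro h5
            rw [h5] at hu
            exact hvS hu
          rw [Function.update_of_ne huv]
          exact hfS u hu
        by_cases hu : ∃ u ∈ P, G.Adj v u
        · obtain ⟨u, hu, hvu⟩ := hu
          by_cases hw : ∃ w ∈ P, G.Adj v w ∧ u ≠ w
          · obtain ⟨w, hw, hvw, huw⟩ := hw
            rcases h v hvS u w hvu hvw (hlt u hu) (hlt w hw) huw with hadj | ⟨huS, hwS, hc⟩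
            · have hne := hf.2.2 u hu w hw hadj
              refine fin (lk T (f u) (f w)) (hbig _ _ hne) (hnb _ _) ?_
              intro x hx y hy hvy
              rcases h3 v hvS u w y hvu hvw hvy (hlt u hu) (hlt w hw) (hlt y hy) with h4 | h4 | h4
              · exact (huw h4).elim
              · rw [← h4]
                exact ⟨f w, lk_rot hx⟩
              · rw [← h4]
                rw [lk_comm] at hx
                exact ⟨f u, lk_rot hx⟩
            · rw [← hfS u huS, ← hfS w hwS] at hc
              refine fin (nbh T (f u) ∩ nbh T (f w)) hc ?_ ?_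
              · intro x hx
                exact ⟨f u, nbh_comm.1 (Finset.mem_inter.1 hx).1⟩
              · intro x hx y hy hvy
                rcases h3 v hvS u w y hvu hvw hvy (hlt u hu) (hlt w hw) (hlt y hy) with h4 | h4 | h4
                · exact (huw h4).elim
                · rw [← h4]
                  exact mem_nbh.1 (Finset.mem_inter.1 hx).1
                · rw [← h4]
                  exact mem_nbh.1 (Finset.mem_inter.1 hx).2
          · obtain ⟨w, hw1⟩ := hf.2.1 u hu
            have hne := mem_nbh.1 hw1
            refine fin (lk T (f u) w) (hbig _ _ hne) (hnb _ _) ?_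
            intro x hx y hy hvy
            by_cases h4 : u = y
            · rw [← h4]
              exact ⟨w, lk_rot hx⟩
            · exact (hw ⟨y, hy, hvy, h4⟩).elim
        · obtain ⟨a, b, hab⟩ := hT
          refine fin (lk T a b) (hbig a b hab) (hnb a b) ?_
          intro x _ u hu' hadj
          exact (hu ⟨u, hu', hadj⟩).elim
  obtain ⟨f, hf, -⟩ := key k le_rfl
  refine ⟨f, ?_⟩
  have h1 : (univ.filter (fun v : Fin k => v ∈ S ∨ (v : ℕ) < k)) = univ := by
    ext v
    rw [Finset.mem_filter]
    exact ⟨fun h => h.1, fun h => ⟨h, Or.inr v.2⟩⟩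
  rw [h1] at hf
  exact hf

end Pool.Agent.TTR
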