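import Pool.Agent.TTR.Tm

/-!
# Two-trees (MP_c7cb83_co), module Lv: level sets and the lower bound

PLAN.  `lev_loss`: for a fixed ordered pair `(u, u')` the vertices `w ∈ lk (Lev d) u u'` with
`#{x ∈ lk (Lev d) u u' : codeg (u', x) ≤ codeg (u', w)} < θ codeg (u, u')` are at most `θ codeg (u, u')` (take the one with the largest
`codeg (u', w)`: all others are in its set).  An ordered triple `(u, u', w)` with `{u, u', w} ∈ Lev d \ Lev (d + 1)` has a permutation
which is violating; the six sums over the permutations are equal (`ts_swap12`, `ts_rot`, ..., all sums written as `TS`).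
`ww_low`: by induction on `k ≤ N`: `(θ / 2) ^ k * SL (Lev N) ≤ WW k (indicator of: all triangles {φ v, φ (ρ v), φ (σ v)}, v ≤ k + 2, are in
Lev (N - k))`.  Step: `{φ y, φ (ρ y), φ (σ y)} ∈ Lev (N - k)` (`y = y (k + 3) ≤ k + 2`) gives `≥ θ codeg` vertices `x` with
`{φ y, φ (ρ y), x} ∈ Lev (N - k - 1)` and the degree condition, at most `k + 3` of them are values of `φ`, and
`θ codeg - (k + 3) ≥ (θ / 2) codeg` because `codeg ≥ K`.
-/

set_option autoImplicit false

namespace Pool.Agent.TTR

open Finset Pool.Agent.FAN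

variable {n : ℕ} {ρ σ y : ℕ → ℕ}

/-- the number of ordered triples -/
noncomputable def SL (L : Finset (Finset (Fin n))) : ℝ := ∑ u, ∑ u', ((lk L u u').card : ℝ)

open Classical in
/-- the level sets -/
noncomputable def Lev (T : Finset (Finset (Fin n))) (θ : ℝ) : ℕ → Finset (Finset (Fin n))
  | 0 => T
  | (d + 1) => (Lev T θ d).filter (fun e => ∀ u u' w : Fin n, e = {u, u', w} →
      θ * ((lk T u u').card : ℝ) ≤
        (((lk (Lev T θ d) u u').filter (fun x => (lk T u' x).card ≤ (lk T u' w).card)).card : ℝ))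

private theorem lv_mem {T : Finset (Finset (Fin n))} {θ : ℝ} {d : ℕ} {e : Finset (Fin n)} :
    e ∈ Lev T θ (d + 1) ↔ e ∈ Lev T θ d ∧ ∀ u u' w : Fin n, e = {u, u', w} →
      θ * ((lk T u u').card : ℝ) ≤
        (((lk (Lev T θ d) u u').filter (fun x => (lk T u' x).card ≤ (lk T u' w).card)).card : ℝ) := by
  rw [Lev, Finset.mem_filter]

private theorem lv_succ (T : Finset (Finset (Fin n))) (θ : ℝ) (d : ℕ) :
    Lev T θ (d + 1) ⊆ Lev T θ d := fun _ he => (lv_mem.1 he).1

private theorem lv_sub (T : Finset (Finset (Fin n))) (θ : ℝ) (d : ℕ) : Lev T θ d ⊆ T := by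
  induction d with
  | zero => exact Finset.Subset.refl _
  | succ d ih => exact (lv_succ T θ d).trans ih

private theorem lv_card (P : Fin n → Fin n → Fin n → Prop) [∀ a b c, Decidable (P a b c)] :
    ((univ.filter (fun p : Fin n × Fin n × Fin n => P p.1 p.2.1 p.2.2)).card : ℝ) =
      ∑ u, ∑ u', (((univ : Finset (Fin n)).filter (fun w => P u u' w)).card : ℝ) := by
  simp only [Finset.card_filter, Nat.cast_sum]
  rw [Fintype.sum_prod_type]
  refine Finset.sum_congr rfl fun u _ => ?_
  rw [Fintype.sum_prod_type]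

private theorem lv_fib2 (u w : Fin n) :
    (univ.filter (fun p : Fin n × Fin n × Fin n =>
      ({p.1, p.2.1, p.2.2} : Finset (Fin n)) = {u, w})).card ≤ 6 := by
  have hs : univ.filter (fun p : Fin n × Fin n × Fin n =>
      ({p.1, p.2.1, p.2.2} : Finset (Fin n)) = {u, w}) ⊆
      {(u, u, w), (u, w, u), (w, u, u), (w, w, u), (w, u, w), (u, w, w)} := by
    rintro ⟨a, b, c⟩ hp
    have hp1 : ({a, b, c} : Finset (Fin n)) = {u, w} := (Finset.mem_filter.1 hp).2
    have ha : a = u ∨ a = w := by
      have h1 : a ∈ ({a, b, c} : Finset (Fin n)) := by simp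
      rw [hp1] at h1
      simpa using h1
    have hb : b = u ∨ b = w := by
      have h1 : b ∈ ({a, b, c} : Finset (Fin n)) := by simp
      rw [hp1] at h1
      simpa using h1
    have hc : c = u ∨ c = w := by
      have h1 : c ∈ ({a, b, c} : Finset (Fin n)) := by simp
      rw [hp1] at h1
      simpa using h1
    have hu : u = a ∨ u = b ∨ u = c := by
      have h1 : u ∈ ({u, w} : Finset (Fin n)) := by simp
      rw [← hp1] at h1
      simpa using h1
    have hw : w = a ∨ w = b ∨ w = c := by
      have h1 : w ∈ ({u, w} : Finset (Fin n)) := by simp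
      rw [← hp1] at h1
      simpa using h1
    clear hp hp1
    simp only [Finset.mem_insert, Finset.mem_singleton, Prod.mk.injEq]
    rcases ha with rfl | rfl <;> rcases hb with rfl | rfl <;> rcases hc with rfl | rfl <;> simp_all
  exact (Finset.card_le_card hs).trans Finset.card_le_six

private theorem lv_fib3 {u v w : Fin n} (huv : u ≠ v) (huw : u ≠ w) (hvw : v ≠ w) :
    (univ.filter (fun p : Fin n × Fin n × Fin n =>
      ({p.1, p.2.1, p.2.2} : Finset (Fin n)) = {u, v, w})).card ≤ 6 := by
  have hs : univ.filter (fun p : Fin n × Fin n × Fin n =>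
      ({p.1, p.2.1, p.2.2} : Finset (Fin n)) = {u, v, w}) ⊆
      {(u, v, w), (u, w, v), (v, u, w), (v, w, u), (w, u, v), (w, v, u)} := by
    rintro ⟨a, b, c⟩ hp
    have hp1 : ({a, b, c} : Finset (Fin n)) = {u, v, w} := (Finset.mem_filter.1 hp).2
    have ha : a = u ∨ a = v ∨ a = w := by
      have h1 : a ∈ ({a, b, c} : Finset (Fin n)) := by simp
      rw [hp1] at h1
      simpa using h1
    have hb : b = u ∨ b = v ∨ b = w := by
      have h1 : b ∈ ({a, b, c} : Finset (Fin n)) := by simp
      rw [hp1] at h1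
      simpa using h1
    have hc : c = u ∨ c = v ∨ c = w := by
      have h1 : c ∈ ({a, b, c} : Finset (Fin n)) := by simp
      rw [hp1] at h1
      simpa using h1
    have hu : u = a ∨ u = b ∨ u = c := by
      have h1 : u ∈ ({u, v, w} : Finset (Fin n)) := by simp
      rw [← hp1] at h1
      simpa using h1
    have hv : v = a ∨ v = b ∨ v = c := by
      have h1 : v ∈ ({u, v, w} : Finset (Fin n)) := by simp
      rw [← hp1] at h1
      simpa using h1
    have hw : w = a ∨ w = b ∨ w = c := by
      have h1 : w ∈ ({u, v, w} : Finset (Fin n)) := by simp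
      rw [← hp1] at h1
      simpa using h1
    have huv' := huv.symm
    have huw' := huw.symm
    have hvw' := hvw.symm
    clear hp hp1
    simp only [Finset.mem_insert, Finset.mem_singleton, Prod.mk.injEq]
    rcases ha with rfl | rfl | rfl <;> rcases hb with rfl | rfl | rfl <;>
      rcases hc with rfl | rfl | rfl <;> simp_all
  exact (Finset.card_le_card hs).trans Finset.card_le_six

private theorem lv_fib (e : Finset (Fin n)) :
    (univ.filter (fun p : Fin n × Fin n × Fin n =>
      ({p.1, p.2.1, p.2.2} : Finset (Fin n)) = e)).card ≤ 6 := by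
  rcases (univ.filter (fun p : Fin n × Fin n × Fin n =>
      ({p.1, p.2.1, p.2.2} : Finset (Fin n)) = e)).eq_empty_or_nonempty with h0 | ⟨⟨u, v, w⟩, hp⟩
  · rw [h0, Finset.card_empty]
    omega
  · have hp1 : ({u, v, w} : Finset (Fin n)) = e := (Finset.mem_filter.1 hp).2
    rw [← hp1]
    by_cases h1 : u = v
    · subst h1
      rw [Finset.insert_idem]
      exact lv_fib2 u w
    · by_cases h2 : u = w
      · subst h2
        have h3 : ({u, v, u} : Finset (Fin n)) = {u, v} := by
          ext x
          simp only [Finset.mem_insert, Finset.mem_singleton]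
          tauto
        rw [h3]
        exact lv_fib2 u v
      · by_cases h4 : v = w
        · subst h4
          rw [Finset.pair_eq_singleton]
          exact lv_fib2 u v
        · exact lv_fib3 h1 h2 h4

open Classical in
private theorem lv_pair {T L : Finset (Finset (Fin n))} {θ : ℝ} (hθ : 0 ≤ θ) (u u' : Fin n) :
    (((lk L u u').filter (fun w => ¬ θ * ((lk T u u').card : ℝ) ≤
        (((lk L u u').filter (fun x => (lk T u' x).card ≤ (lk T u' w).card)).card : ℝ))).card : ℝ) ≤
      θ * ((lk T u u').card : ℝ) := by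
  set A := (lk L u u').filter (fun w => ¬ θ * ((lk T u u').card : ℝ) ≤
        (((lk L u u').filter (fun x => (lk T u' x).card ≤ (lk T u' w).card)).card : ℝ)) with hA
  rcases A.eq_empty_or_nonempty with h0 | h0
  · rw [h0, Finset.card_empty, Nat.cast_zero]
    positivity
  · obtain ⟨g, hg, hm⟩ := Finset.exists_max_image A (fun x => (lk T u' x).card) h0
    have hg1 := hg
    rw [hA, Finset.mem_filter] at hg1
    refine le_trans ?_ (not_le.1 hg1.2).le
    have h6 : A ⊆ (lk L u u').filter (fun x => (lk T u' x).card ≤ (lk T u' g).card) := by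
      intro x hx
      rw [Finset.mem_filter]
      refine ⟨?_, hm x hx⟩
      rw [hA, Finset.mem_filter] at hx
      exact hx.1
    exact_mod_cast Finset.card_le_card h6

theorem lev_loss {T : Finset (Finset (Fin n))} {θ : ℝ} (hθ : 0 ≤ θ) (d : ℕ) :
    SL (Lev T θ d) ≤ SL (Lev T θ (d + 1)) + 6 * θ * SL T := by
  classical
  set L := Lev T θ d with hL
  set B := (univ : Finset (Fin n × Fin n × Fin n)).filter (fun p =>
    (({p.1, p.2.1, p.2.2} : Finset (Fin n)) ∈ L ∧
      ({p.1, p.2.1, p.2.2} : Finset (Fin n)) ∉ Lev T θ (d + 1))) with hB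
  set V := (univ : Finset (Fin n × Fin n × Fin n)).filter (fun p =>
    (({p.1, p.2.1, p.2.2} : Finset (Fin n)) ∈ L ∧ ¬ θ * ((lk T p.1 p.2.1).card : ℝ) ≤
      (((lk L p.1 p.2.1).filter (fun x => (lk T p.2.1 x).card ≤ (lk T p.2.1 p.2.2).card)).card : ℝ)))
    with hV
  have h1 : SL L ≤ SL (Lev T θ (d + 1)) + (B.card : ℝ) := by
    rw [hB, lv_card (fun a b c => (({a, b, c} : Finset (Fin n)) ∈ L ∧
      ({a, b, c} : Finset (Fin n)) ∉ Lev T θ (d + 1)))]
    unfold SL
    rw [← Finset.sum_add_distrib]
    refine Finset.sum_le_sum fun u _ => ?_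
    rw [← Finset.sum_add_distrib]
    refine Finset.sum_le_sum fun u' _ => ?_
    have h2 : lk L u u' ⊆ lk (Lev T θ (d + 1)) u u' ∪ (univ : Finset (Fin n)).filter (fun w =>
        (({u, u', w} : Finset (Fin n)) ∈ L ∧ ({u, u', w} : Finset (Fin n)) ∉ Lev T θ (d + 1))) := by
      intro w hw
      rw [mem_lk] at hw
      rw [Finset.mem_union, mem_lk, Finset.mem_filter]
      by_cases h3 : ({u, u', w} : Finset (Fin n)) ∈ Lev T θ (d + 1)
      · exact Or.inl h3
      · exact Or.inr ⟨Finset.mem_univ _, hw, h3⟩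
    have h3 := (Finset.card_le_card h2).trans (Finset.card_union_le _ _)
    exact_mod_cast h3
  have h2 : B.card ≤ 6 * V.card := by
    have h3 : B.card ≤ 6 * (B.image (fun p : Fin n × Fin n × Fin n =>
        ({p.1, p.2.1, p.2.2} : Finset (Fin n)))).card := by
      refine Finset.card_le_mul_card_image B 6 fun e _ => ?_
      exact (Finset.card_le_card (Finset.filter_subset_filter _ (Finset.subset_univ _))).trans (lv_fib e)
    have h4 : B.image (fun p : Fin n × Fin n × Fin n => ({p.1, p.2.1, p.2.2} : Finset (Fin n))) ⊆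
        V.image (fun p : Fin n × Fin n × Fin n => ({p.1, p.2.1, p.2.2} : Finset (Fin n))) := by
      intro e he
      obtain ⟨p, hp, rfl⟩ := Finset.mem_image.1 he
      rw [hB, Finset.mem_filter] at hp
      obtain ⟨-, hp1, hp2⟩ := hp
      rw [lv_mem] at hp2
      have h5 : ¬ ∀ u u' w : Fin n, ({p.1, p.2.1, p.2.2} : Finset (Fin n)) = {u, u', w} →
          θ * ((lk T u u').card : ℝ) ≤
          (((lk L u u').filter (fun x => (lk T u' x).card ≤ (lk T u' w).card)).card : ℝ) :=
        fun h6 => hp2 ⟨hp1, h6⟩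
      push Not at h5
      obtain ⟨u, u', w, h6, h7⟩ := h5
      refine Finset.mem_image.2 ⟨(u, u', w), ?_, h6.symm⟩
      rw [hV, Finset.mem_filter]
      refine ⟨Finset.mem_univ _, ?_, not_le.2 h7⟩
      show ({u, u', w} : Finset (Fin n)) ∈ L
      rw [← h6]
      exact hp1
    exact h3.trans (Nat.mul_le_mul_left 6 ((Finset.card_le_card h4).trans Finset.card_image_le))
  have h3 : (V.card : ℝ) ≤ θ * SL T := by
    rw [hV, lv_card (fun a b c => (({a, b, c} : Finset (Fin n)) ∈ L ∧
      ¬ θ * ((lk T a b).card : ℝ) ≤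
      (((lk L a b).filter (fun x => (lk T b x).card ≤ (lk T b c).card)).card : ℝ)))]
    unfold SL
    rw [Finset.mul_sum]
    refine Finset.sum_le_sum fun u _ => ?_
    rw [Finset.mul_sum]
    refine Finset.sum_le_sum fun u' _ => ?_
    refine le_trans (le_of_eq ?_) (lv_pair (L := L) hθ u u')
    have h4 : ∀ s : Finset (Fin n), s.filter (fun w =>
        (({u, u', w} : Finset (Fin n)) ∈ L ∧ ¬ θ * ((lk T u u').card : ℝ) ≤
        (((lk L u u').filter (fun x => (lk T u' x).card ≤ (lk T u' w).card)).card : ℝ))) =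
        (s.filter (fun w => ({u, u', w} : Finset (Fin n)) ∈ L)).filter (fun w =>
        ¬ θ * ((lk T u u').card : ℝ) ≤
        (((lk L u u').filter (fun x => (lk T u' x).card ≤ (lk T u' w).card)).card : ℝ)) := by
      intro s
      rw [Finset.filter_filter]
    rw [h4]
    rfl
  have h4 : (B.card : ℝ) ≤ 6 * (V.card : ℝ) := by
    exact_mod_cast h2
  linarith

private def lv_P (L : Finset (Finset (Fin n))) (ρ σ : ℕ → ℕ) (k : ℕ) (φ : ℕ → Fin n) : Prop :=
  ∀ v, v ≤ k + 2 → ({φ v, φ (ρ v), φ (σ v)} : Finset (Fin n)) ∈ L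

open Classical in
private noncomputable def lv_ind (L : Finset (Finset (Fin n))) (ρ σ : ℕ → ℕ) (k : ℕ)
    (φ : ℕ → Fin n) : ℝ := if lv_P L ρ σ k φ then 1 else 0

private theorem lv_base (h : TT ρ σ y) (T : Finset (Finset (Fin n))) (θ : ℝ) (N : ℕ) :
    SL (Lev T θ N) ≤ WW T ρ σ y 0 (lv_ind (Lev T θ N) ρ σ 0) := by
  classical
  rw [WW]
  unfold SL
  refine Finset.sum_le_sum fun u _ => Finset.sum_le_sum fun u' _ => ?_
  have h1 : (lk (Lev T θ N) u u') ⊆
      (lk T u u').filter (fun u'' => lv_P (Lev T θ N) ρ σ 0 (b3 u u' u'')) := by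
    intro w hw
    rw [mem_lk] at hw
    rw [Finset.mem_filter, mem_lk]
    refine ⟨lv_sub T θ N hw, fun v hv => ?_⟩
    have h2 : v = 0 ∨ v = 1 ∨ v = 2 := by omega
    rcases h2 with rfl | rfl | rfl
    · rw [h.r0, h.s0]
      exact hw
    · rw [h.r1, h.s1, b3_0, b3_1, b3_2]
      have h3 : ({u', w, u} : Finset (Fin n)) = {u, u', w} := by
        ext x
        simp only [Finset.mem_insert, Finset.mem_singleton]
        tauto
      rw [h3]
      exact hw
    · rw [h.r2, h.s2, b3_0, b3_1, b3_2]
      have h3 : ({w, u, u'} : Finset (Fin n)) = {u, u', w} := by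
        ext x
        simp only [Finset.mem_insert, Finset.mem_singleton]
        tauto
      rw [h3]
      exact hw
  have h2 : ∑ u'' ∈ lk T u u', lv_ind (Lev T θ N) ρ σ 0 (b3 u u' u'') =
      (((lk T u u').filter (fun u'' => lv_P (Lev T θ N) ρ σ 0 (b3 u u' u''))).card : ℝ) := by
    rw [Finset.card_filter, Nat.cast_sum]
    refine Finset.sum_congr rfl fun x _ => ?_
    unfold lv_ind
    split_ifs <;> simp
  rw [h2]
  exact_mod_cast Finset.card_le_card h1

private theorem lv_step (h : TT ρ σ y) {T : Finset (Finset (Fin n))} {θ : ℝ} (hθ : 0 < θ) {K : ℕ}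
    (hK : ∀ a b, (lk T a b).card = 0 ∨ K ≤ (lk T a b).card) {k d : ℕ}
    (hN : 2 * ((k : ℝ) + 3) ≤ θ * K) :
    (θ / 2) * WW T ρ σ y k (lv_ind (Lev T θ (d + 1)) ρ σ k) ≤
      WW T ρ σ y (k + 1) (lv_ind (Lev T θ d) ρ σ (k + 1)) := by
  classical
  rw [← ww_mul, WW]
  refine ww_mono h T k fun φ _ => ?_
  obtain ⟨hy1, hy2, hy3⟩ := h.ylt (v := k + 3) (by omega)
  by_cases hP : lv_P (Lev T θ (d + 1)) ρ σ k φ
  · have h1 := hP (y (k + 3)) (by omega)
    have h2 := (lv_mem.1 h1).2 _ _ _ rfl
    have hw : φ (σ (y (k + 3))) ∈ lk T (φ (y (k + 3))) (φ (ρ (y (k + 3)))) :=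
      mem_lk.2 (lv_sub T θ (d + 1) h1)
    have hpos : 0 < (lk T (φ (y (k + 3))) (φ (ρ (y (k + 3))))).card := Finset.card_pos.2 ⟨_, hw⟩
    have hKc : K ≤ (lk T (φ (y (k + 3))) (φ (ρ (y (k + 3))))).card := by
      rcases hK (φ (y (k + 3))) (φ (ρ (y (k + 3)))) with h3 | h3
      · omega
      · exact h3
    have hpos' : (0 : ℝ) < ((lk T (φ (y (k + 3))) (φ (ρ (y (k + 3))))).card : ℝ) := by
      exact_mod_cast hpos
    have hKc' : (K : ℝ) ≤ ((lk T (φ (y (k + 3))) (φ (ρ (y (k + 3))))).card : ℝ) := by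
      exact_mod_cast hKc
    rw [le_div_iff₀ hpos']
    have h3 : lv_ind (Lev T θ (d + 1)) ρ σ k φ = 1 := if_pos hP
    rw [h3, mul_one]
    set S := (lk (Lev T θ d) (φ (y (k + 3))) (φ (ρ (y (k + 3))))).filter
      (fun x => (lk T (φ (ρ (y (k + 3)))) x).card ≤
        (lk T (φ (ρ (y (k + 3)))) (φ (σ (y (k + 3))))).card) with hS
    have hsub : S \ (Finset.range (k + 3)).image φ ⊆ (Ch T ρ σ y φ (k + 3)).filter
        (fun x => lv_P (Lev T θ d) ρ σ (k + 1) (Function.update φ (k + 3) x)) := by
      intro x hx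
      rw [Finset.mem_sdiff, hS, Finset.mem_filter, mem_lk] at hx
      obtain ⟨⟨hx1, hx2⟩, hx3⟩ := hx
      rw [Finset.mem_filter]
      refine ⟨?_, fun v hv => ?_⟩
      · unfold Ch
        rw [Finset.mem_filter, mem_lk]
        refine ⟨lv_sub T θ d hx1, hx2, fun i hi h4 => hx3 ?_⟩
        exact Finset.mem_image.2 ⟨i, Finset.mem_range.2 hi, h4.symm⟩
      · rcases Nat.lt_or_ge v (k + 3) with h4 | h4
        · obtain ⟨h5, h6⟩ := h.rs_le (v := v) (N := k) (by omega)
          rw [Function.update_of_ne (by omega), Function.update_of_ne (by omega),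
            Function.update_of_ne (by omega)]
          exact lv_succ T θ d (hP v (by omega))
        · have h5 : v = k + 3 := by omega
          subst h5
          obtain ⟨h6, h7⟩ := h.rlt (v := k + 3) (by omega)
          rw [Function.update_self, Function.update_of_ne (by omega),
            Function.update_of_ne (by omega)]
          rcases h.eq (k + 3) (by omega) with ⟨h8, h9⟩ | ⟨h8, h9⟩
          · rw [h8, h9]
            have h10 : ({x, φ (y (k + 3)), φ (ρ (y (k + 3)))} : Finset (Fin n)) =
                {φ (y (k + 3)), φ (ρ (y (k + 3))), x} := by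
              ext z
              simp only [Finset.mem_insert, Finset.mem_singleton]
              tauto
            rw [h10]
            exact hx1
          · rw [h8, h9]
            have h10 : ({x, φ (ρ (y (k + 3))), φ (y (k + 3))} : Finset (Fin n)) =
                {φ (y (k + 3)), φ (ρ (y (k + 3))), x} := by
              ext z
              simp only [Finset.mem_insert, Finset.mem_singleton]
              tauto
            rw [h10]
            exact hx1
    have h4 : ∑ x ∈ Ch T ρ σ y φ (k + 3),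
        lv_ind (Lev T θ d) ρ σ (k + 1) (Function.update φ (k + 3) x) =
        (((Ch T ρ σ y φ (k + 3)).filter
          (fun x => lv_P (Lev T θ d) ρ σ (k + 1) (Function.update φ (k + 3) x))).card : ℝ) := by
      rw [Finset.card_filter, Nat.cast_sum]
      refine Finset.sum_congr rfl fun x _ => ?_
      unfold lv_ind
      split_ifs <;> simp
    rw [h4]
    have h5 : S.card ≤ (S \ (Finset.range (k + 3)).image φ).card + (k + 3) := by
      have h6 := Finset.card_le_card_sdiff_add_card (s := S) (t := (Finset.range (k + 3)).image φ)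
      have h7 : ((Finset.range (k + 3)).image φ).card ≤ k + 3 := by
        refine Finset.card_image_le.trans ?_
        rw [Finset.card_range]
      omega
    have h6 : (S.card : ℝ) ≤ ((S \ (Finset.range (k + 3)).image φ).card : ℝ) + ((k : ℝ) + 3) := by
      exact_mod_cast h5
    have h7 : ((S \ (Finset.range (k + 3)).image φ).card : ℝ) ≤
        (((Ch T ρ σ y φ (k + 3)).filter
          (fun x => lv_P (Lev T θ d) ρ σ (k + 1) (Function.update φ (k + 3) x))).card : ℝ) := by
      exact_mod_cast Finset.card_le_card hsub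
    have h8 : θ * (K : ℝ) ≤ θ * ((lk T (φ (y (k + 3))) (φ (ρ (y (k + 3))))).card : ℝ) :=
      mul_le_mul_of_nonneg_left hKc' hθ.le
    linarith
  · have h1 : lv_ind (Lev T θ (d + 1)) ρ σ k φ = 0 := if_neg hP
    rw [h1, mul_zero]
    refine div_nonneg (Finset.sum_nonneg fun x _ => ?_) (Nat.cast_nonneg _)
    unfold lv_ind
    split_ifs <;> norm_num

theorem ww_low (h : TT ρ σ y) {T : Finset (Finset (Fin n))} {θ : ℝ} (hθ : 0 < θ) {K : ℕ}
    (hK : ∀ a b, (lk T a b).card = 0 ∨ K ≤ (lk T a b).card) {N : ℕ}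
    (hN : 2 * ((N : ℝ) + 3) ≤ θ * K) :
    (θ / 2) ^ N * ((1 - 6 * N * θ) * SL T) ≤ WW T ρ σ y N (fun _ => 1) := by
  have hloss : ∀ d : ℕ, SL T ≤ SL (Lev T θ d) + 6 * d * θ * SL T := by
    intro d
    induction d with
    | zero =>
      rw [Nat.cast_zero]
      show SL T ≤ SL T + 6 * 0 * θ * SL T
      linarith
    | succ d ih =>
      have h1 := lev_loss (T := T) hθ.le d
      push_cast
      nlinarith
  have key : ∀ k, k ≤ N → (θ / 2) ^ k * SL (Lev T θ N) ≤
      WW T ρ σ y k (lv_ind (Lev T θ (N - k)) ρ σ k) := by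
    intro k
    induction k with
    | zero =>
      intro _
      rw [pow_zero, one_mul, Nat.sub_zero]
      exact lv_base h T θ N
    | succ k ih =>
      intro hk
      have h1 : N - k = (N - (k + 1)) + 1 := by omega
      have h2 : 2 * ((k : ℝ) + 3) ≤ θ * K := by
        have h3 : ((k + 1 : ℕ) : ℝ) ≤ (N : ℝ) := by exact_mod_cast hk
        push_cast at h3
        linarith
      have h3 := ih (by omega)
      rw [h1] at h3
      refine le_trans ?_ (lv_step h hθ hK (d := N - (k + 1)) h2)
      rw [pow_succ, mul_comm ((θ / 2) ^ k) (θ / 2), mul_assoc]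
      exact mul_le_mul_of_nonneg_left h3 (by positivity)
  have h1 := key N le_rfl
  have h2 : WW T ρ σ y N (lv_ind (Lev T θ (N - N)) ρ σ N) ≤ WW T ρ σ y N (fun _ => 1) := by
    refine ww_mono h T N fun φ _ => ?_
    unfold lv_ind
    split_ifs <;> norm_num
  refine le_trans ?_ (h1.trans h2)
  refine mul_le_mul_of_nonneg_left ?_ (by positivity)
  have h3 := hloss N
  linarith

end Pool.Agent.TTR
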