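import Pool.Agent.TTR.Pr
import Pool.Agent.TTR.Lv
import Pool.Agent.TTR.Cb
import Pool.Agent.TTR.Eb
import Pool.Agent.FAN.Cb

/-!
# Two-trees (MP_c7cb83_co): assembly

The sum of the weights of the admissible maps of the 2-tree is at least a constant times the number
of triples, the maps with a bad pair have weight at most a constant times `n ^ 2`; so there is an
admissible map without bad pairs, it is extended greedily and the expansion vertices are chosen.
-/

set_option autoImplicit false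

namespace Pool.Agent.TTR

open Finset Pool.Agent.FAN

variable {n : ℕ} {ρ σ y : ℕ → ℕ}

private theorem fi_card_le (T : Finset (Finset (Fin n))) (hT : ∀ e ∈ T, e.card = 3) :
    (T.card : ℝ) ≤ SL T := by
  classical
  have h0 : T.card ≤ ∑ z : Fin n, ∑ a : Fin n, (lk T z a).card := by
    have h1 : (∑ z : Fin n, ∑ a : Fin n, (lk T z a).card)
        = ((univ : Finset (Fin n × Fin n × Fin n)).filter (fun p => p.2.2 ∈ lk T p.1 p.2.1)).card := by
      rw [Finset.card_filter, Fintype.sum_prod_type]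
      refine Finset.sum_congr rfl fun z _ => ?_
      rw [Fintype.sum_prod_type]
      refine Finset.sum_congr rfl fun a _ => ?_
      have h2 : lk T z a = univ.filter (fun w => w ∈ lk T z a) := by
        ext w; simp
      rw [h2, Finset.card_filter]
    rw [h1]
    have h3 : T ⊆ ((univ : Finset (Fin n × Fin n × Fin n)).filter
        (fun p => p.2.2 ∈ lk T p.1 p.2.1)).image
        (fun p => ({p.1, p.2.1, p.2.2} : Finset (Fin n))) := by
      intro t ht
      obtain ⟨x, y, w, _, _, _, rfl⟩ := Finset.card_eq_three.mp (hT t ht)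
      rw [Finset.mem_image]
      exact ⟨(x, y, w), Finset.mem_filter.mpr ⟨Finset.mem_univ _, mem_lk.mpr ht⟩, rfl⟩
    exact (Finset.card_le_card h3).trans Finset.card_image_le
  unfold SL
  exact_mod_cast h0

private theorem fi_bad_le (T : Finset (Finset (Fin n))) (K : ℕ) :
    ∑ z : Fin n, ((bad T K z).card : ℝ) ≤ K * (n : ℝ) ^ 2 := by
  classical
  have h0 : ∑ z : Fin n, (bad T K z).card ≤ K * n ^ 2 := by
    have h1 : ∀ z : Fin n, (bad T K z).card = ∑ p : Fin n × Fin n,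
        (if (lk T z p.1).Nonempty ∧ (lk T z p.2).Nonempty ∧ (nbh T p.1 ∩ nbh T p.2).card < K
          then 1 else 0) := by
      intro z
      rw [bad, Finset.card_filter]
    rw [Finset.sum_congr rfl (fun z _ => h1 z), Finset.sum_comm]
    have h2 : ∀ p ∈ (univ : Finset (Fin n × Fin n)), (∑ z : Fin n,
        (if (lk T z p.1).Nonempty ∧ (lk T z p.2).Nonempty ∧ (nbh T p.1 ∩ nbh T p.2).card < K
          then 1 else 0)) ≤ K := by
      intro p _
      rw [← Finset.card_filter]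
      by_cases hK : (nbh T p.1 ∩ nbh T p.2).card < K
      · refine le_trans (Finset.card_le_card ?_) hK.le
        intro z hz
        obtain ⟨_, ha, hb, _⟩ := Finset.mem_filter.mp hz
        rw [Finset.mem_inter]
        exact ⟨nbh_comm.mp (mem_nbh.mpr ha), nbh_comm.mp (mem_nbh.mpr hb)⟩
      · have h3 : (univ.filter (fun z : Fin n => (lk T z p.1).Nonempty ∧ (lk T z p.2).Nonempty ∧
            (nbh T p.1 ∩ nbh T p.2).card < K)) = ∅ := by
          apply Finset.filter_eq_empty_iff.mpr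
          rintro z _ ⟨_, _, h4⟩
          exact hK h4
        rw [h3]
        simp
    refine (Finset.sum_le_card_nsmul _ _ _ h2).trans ?_
    rw [Finset.card_univ, Fintype.card_prod, Fintype.card_fin, smul_eq_mul]
    exact le_of_eq (by ring)
  exact_mod_cast h0

/-- admissible maps are injective -/
private theorem fi_inj {T : Finset (Finset (Fin n))} (hT : ∀ e ∈ T, e.card = 3)
    {N : ℕ} {φ : ℕ → Fin n} (hφ : Vd T ρ σ y N φ) :
    ∀ i ≤ N + 2, ∀ j ≤ N + 2, φ i = φ j → i = j := by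
  have key : ∀ j ≤ N + 2, ∀ i < j, φ i ≠ φ j := by
    intro j hj i hij
    rcases Nat.lt_or_ge j 3 with h1 | h1
    · obtain ⟨e1, e2, e3⟩ := lk_ne hT hφ.1
      have h2 : (i = 0 ∧ j = 1) ∨ (i = 0 ∧ j = 2) ∨ (i = 1 ∧ j = 2) := by omega
      rcases h2 with ⟨rfl, rfl⟩ | ⟨rfl, rfl⟩ | ⟨rfl, rfl⟩
      · exact e1
      · exact fun h3 => e2 h3.symm
      · exact fun h3 => e3 h3.symm
    · have h2 := (Finset.mem_filter.1 (hφ.2 j h1 hj)).2.2 i hij
      exact fun h3 => h2 h3.symm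
  intro i hi j hj hij
  rcases Nat.lt_trichotomy i j with h1 | h1 | h1
  · exact absurd hij (key j hj i h1)
  · exact h1
  · exact absurd hij.symm (key i hi j h1)

/-- an admissible map without bad pairs -/
private theorem fi_exists (h : TT ρ σ y) {N : ℕ} {c : ℕ → Fin 3} (hc : Pc ρ σ c N) (k : ℕ)
    {θ : ℝ} (hθ : θ = 1 / (12 * ((N : ℝ) + 1))) {T : Finset (Finset (Fin n))} {K : ℕ}
    (hK : ∀ a b, (lk T a b).card = 0 ∨ K ≤ (lk T a b).card) (hN : 2 * ((N : ℝ) + 3) ≤ θ * K)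
    (hT : ((N : ℝ) + 3) ^ 3 * (k * (n : ℝ) ^ 2) < (θ / 2) ^ N * (SL T / 2)) :
    ∃ φ, Vd T ρ σ y N φ ∧ ∀ z ≤ N + 2, ∀ p ≤ N + 2, ∀ q ≤ N + 2, Lk ρ σ z p → Lk ρ σ z q →
      c p ≠ c q → (φ p, φ q) ∉ bad T k (φ z) := by
  classical
  by_contra hcon
  push Not at hcon
  have hN0 : (0 : ℝ) ≤ N := Nat.cast_nonneg N
  have hθ0 : 0 < θ := by
    rw [hθ]
    positivity
  have hSL : 0 ≤ SL T := Finset.sum_nonneg fun _ _ => Finset.sum_nonneg fun _ _ => Nat.cast_nonneg _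
  have hlow := ww_low h hθ0 hK hN
  have hhalf : (θ / 2) ^ N * (SL T / 2) ≤ (θ / 2) ^ N * ((1 - 6 * N * θ) * SL T) := by
    refine mul_le_mul_of_nonneg_left ?_ (by positivity)
    have h1 : 6 * N * θ ≤ 1 / 2 := by
      rw [hθ, mul_one_div, div_le_iff₀ (by positivity)]
      linarith
    have h2 : (1 / 2 : ℝ) ≤ 1 - 6 * N * θ := by linarith
    calc SL T / 2 = (1 / 2) * SL T := by ring
      _ ≤ (1 - 6 * N * θ) * SL T := mul_le_mul_of_nonneg_right h2 hSL
  let P : ℕ → ℕ → ℕ → Prop := fun z p q => Lk ρ σ z p ∧ Lk ρ σ z q ∧ c p ≠ c q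
  have hup : WW T ρ σ y N (fun _ => 1) ≤ WW T ρ σ y N (fun φ => ∑ z ∈ Finset.range (N + 3),
      ∑ p ∈ Finset.range (N + 3), ∑ q ∈ Finset.range (N + 3),
        if P z p q ∧ (φ p, φ q) ∈ bad T k (φ z) then 1 else 0) := by
    refine ww_mono h T N fun φ hφ => ?_
    obtain ⟨z, hz, p, hp, q, hq, h1, h2, h3, h4⟩ := hcon φ hφ
    have hnn : ∀ z p q : ℕ, (0 : ℝ) ≤ if P z p q ∧ (φ p, φ q) ∈ bad T k (φ z) then 1 else 0 := by
      intro z p q
      split_ifs <;> norm_num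
    have e1 : (1 : ℝ) = if P z p q ∧ (φ p, φ q) ∈ bad T k (φ z) then 1 else 0 := by
      rw [if_pos ⟨⟨h1, h2, h3⟩, h4⟩]
    calc (1 : ℝ) = if P z p q ∧ (φ p, φ q) ∈ bad T k (φ z) then 1 else 0 := e1
      _ ≤ ∑ q ∈ Finset.range (N + 3), if P z p q ∧ (φ p, φ q) ∈ bad T k (φ z) then (1 : ℝ) else 0 :=
          Finset.single_le_sum (f := fun q => if P z p q ∧ (φ p, φ q) ∈ bad T k (φ z) then (1 : ℝ) else 0)
            (fun q _ => hnn z p q) (Finset.mem_range.2 (by omega))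
      _ ≤ ∑ p ∈ Finset.range (N + 3), ∑ q ∈ Finset.range (N + 3),
          if P z p q ∧ (φ p, φ q) ∈ bad T k (φ z) then (1 : ℝ) else 0 :=
          Finset.single_le_sum (f := fun p => ∑ q ∈ Finset.range (N + 3),
            if P z p q ∧ (φ p, φ q) ∈ bad T k (φ z) then (1 : ℝ) else 0)
            (fun p _ => Finset.sum_nonneg fun q _ => hnn z p q) (Finset.mem_range.2 (by omega))
      _ ≤ _ :=
          Finset.single_le_sum (f := fun z => ∑ p ∈ Finset.range (N + 3), ∑ q ∈ Finset.range (N + 3),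
            if P z p q ∧ (φ p, φ q) ∈ bad T k (φ z) then (1 : ℝ) else 0)
            (fun z _ => Finset.sum_nonneg fun p _ => Finset.sum_nonneg fun q _ => hnn z p q)
            (Finset.mem_range.2 (by omega))
  have hB := fi_bad_le T k
  have hB0 : 0 ≤ ∑ z : Fin n, ((bad T k z).card : ℝ) := Finset.sum_nonneg fun _ _ => Nat.cast_nonneg _
  have hone : ∀ z ∈ Finset.range (N + 3), ∀ p ∈ Finset.range (N + 3), ∀ q ∈ Finset.range (N + 3),
      WW T ρ σ y N (fun φ => if P z p q ∧ (φ p, φ q) ∈ bad T k (φ z) then 1 else 0) ≤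
        k * (n : ℝ) ^ 2 := by
    intro z hz p hp q hq
    rw [Finset.mem_range] at hz hp hq
    by_cases hP : P z p q
    · refine le_trans (le_of_eq ?_) ((ww_bad h T hc (z := z) (p := p) (q := q) (by omega) (by omega)
        (by omega) hP.1 hP.2.1 hP.2.2 (bad T k)).trans hB)
      congr 1
      funext φ
      by_cases h1 : (φ p, φ q) ∈ bad T k (φ z)
      · rw [if_pos ⟨hP, h1⟩, if_pos h1]
      · rw [if_neg (fun h2 => h1 h2.2), if_neg h1]
    · have e1 : (fun φ : ℕ → Fin n => if P z p q ∧ (φ p, φ q) ∈ bad T k (φ z) then (1 : ℝ) else 0) =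
          fun _ => 0 := by
        funext φ
        rw [if_neg (fun h2 => hP h2.1)]
      rw [e1, ww_zero]
      exact hB0.trans hB
  have hsum : WW T ρ σ y N (fun φ => ∑ z ∈ Finset.range (N + 3),
      ∑ p ∈ Finset.range (N + 3), ∑ q ∈ Finset.range (N + 3),
        if P z p q ∧ (φ p, φ q) ∈ bad T k (φ z) then 1 else 0) ≤
      ((N : ℝ) + 3) ^ 3 * (k * (n : ℝ) ^ 2) := by
    rw [ww_sum]
    have s1 : ∀ z ∈ Finset.range (N + 3), WW T ρ σ y N (fun φ => ∑ p ∈ Finset.range (N + 3),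
        ∑ q ∈ Finset.range (N + 3), if P z p q ∧ (φ p, φ q) ∈ bad T k (φ z) then 1 else 0) ≤
        ((N : ℝ) + 3) ^ 2 * (k * (n : ℝ) ^ 2) := by
      intro z hz
      rw [ww_sum]
      have s2 : ∀ p ∈ Finset.range (N + 3), WW T ρ σ y N (fun φ =>
          ∑ q ∈ Finset.range (N + 3), if P z p q ∧ (φ p, φ q) ∈ bad T k (φ z) then 1 else 0) ≤
          ((N : ℝ) + 3) * (k * (n : ℝ) ^ 2) := by
        intro p hp
        rw [ww_sum]
        refine (Finset.sum_le_sum fun q hq => hone z hz p hp q hq).trans (le_of_eq ?_)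
        rw [Finset.sum_const, Finset.card_range, nsmul_eq_mul]
        push_cast
        ring
      refine (Finset.sum_le_sum fun p hp => s2 p hp).trans (le_of_eq ?_)
      rw [Finset.sum_const, Finset.card_range, nsmul_eq_mul]
      push_cast
      ring
    refine (Finset.sum_le_sum fun z hz => s1 z hz).trans (le_of_eq ?_)
    rw [Finset.sum_const, Finset.card_range, nsmul_eq_mul]
    push_cast
    ring
  have := hhalf.trans (hlow.trans (hup.trans hsum))
  linarith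

theorem ttr_main (m : ℕ) (hm : 3 ≤ m) (D : SimpleGraph (Fin m))
    (h1 : ∀ u v : Fin m, (u : ℕ) = 0 → (v : ℕ) = 1 → D.Adj u v)
    (h2 : ∀ v : Fin m, 2 ≤ (v : ℕ) → ∃ a b : Fin m, a < v ∧ b < v ∧ D.Adj a b ∧
      ∀ u < v, D.Adj v u ↔ u = a ∨ u = b)
    (hh : ∀ v : Fin m, 3 ≤ (v : ℕ) → ∀ a b : Fin m, a < v → b < v → a ≠ b → D.Adj v a → D.Adj v b →
      (∀ w, v < w → ¬ (D.Adj w v ∧ D.Adj w a)) ∨ ∀ w, v < w → ¬ (D.Adj w v ∧ D.Adj w b))
    (c : Fin m → Fin 3) (hc : ∀ u v, D.Adj u v → c u ≠ c v)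
    (k : ℕ) (G : SimpleGraph (Fin k)) (S : Finset (Fin k)) (i : Fin k → Fin m)
    (hi : ∀ u ∈ S, ∀ v ∈ S, i u = i v → u = v)
    (hS : ∀ u ∈ S, ∀ v ∈ S, G.Adj u v → D.Adj (i u) (i v))
    (h4 : ∀ v ∉ S, ∀ x y, G.Adj v x → G.Adj v y → (x ∈ S ∨ x < v) → (y ∈ S ∨ y < v) → x ≠ y →
      G.Adj x y ∨ (x ∈ S ∧ y ∈ S ∧ c (i x) ≠ c (i y) ∧ ∃ z, D.Adj z (i x) ∧ D.Adj z (i y)))
    (h5 : ∀ v ∉ S, ∀ x y w, G.Adj v x → G.Adj v y → G.Adj v w → (x ∈ S ∨ x < v) → (y ∈ S ∨ y < v) →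
      (w ∈ S ∨ w < v) → x = y ∨ x = w ∨ y = w) :
    ∃ C : ℝ, ∀ (n : ℕ) (H : Finset (Finset (Fin n))),
      (∀ e ∈ H, e.card = 3) →
      (¬ ∃ f : Fin k → Fin n, ∃ g : Sym2 (Fin k) → Fin n,
          Function.Injective f ∧ Set.InjOn g G.edgeSet ∧
          (∀ e ∈ G.edgeSet, ∀ v : Fin k, g e ≠ f v) ∧
          ∀ u v : Fin k, G.Adj u v → ({f u, f v, g s(u, v)} : Finset (Fin n)) ∈ H) →
      (H.card : ℝ) ≤ C * (n : ℝ) ^ 2 := by
  classical
  obtain ⟨ρ, σ, y, hTT, hL⟩ := exists_tt hm D h1 h2 hh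
  obtain ⟨N, rfl⟩ : ∃ N, m = N + 3 := ⟨m - 3, by omega⟩
  obtain ⟨c', hc'⟩ : ∃ c' : ℕ → Fin 3, ∀ v : Fin (N + 3), c' v = c v :=
    ⟨fun v => if hv : v < N + 3 then c ⟨v, hv⟩ else 0, fun v => dif_pos v.2⟩
  have hadj : ∀ u v : Fin (N + 3), Lk ρ σ u v → c' u ≠ c' v := by
    intro u v huv
    rw [hc' u, hc' v]
    exact hc u v ((hL u v).2 huv)
  have hPc : Pc ρ σ c' N := by
    intro v hv
    obtain ⟨hr, hs⟩ := hTT.rs_le hv
    have a1 := hadj ⟨v, by omega⟩ ⟨ρ v, by omega⟩ (Or.inl rfl)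
    have a2 := hadj ⟨v, by omega⟩ ⟨σ v, by omega⟩ (Or.inr (Or.inl rfl))
    refine ⟨a1, a2, ?_⟩
    have key : ∀ w, w ≤ N + 2 → c' w ≠ c' (ρ w) := by
      intro w hw
      obtain ⟨hr', -⟩ := hTT.rs_le hw
      exact hadj ⟨w, by omega⟩ ⟨ρ w, by omega⟩ (Or.inl rfl)
    rcases Nat.lt_or_ge v 3 with h6 | h6
    · have h7 : v = 0 ∨ v = 1 ∨ v = 2 := by omega
      rcases h7 with rfl | rfl | rfl
      · rw [hTT.r0, hTT.s0]
        have := key 1 (by omega)
        rwa [hTT.r1] at this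
      · rw [hTT.r1, hTT.s1]
        have := key 2 (by omega)
        rwa [hTT.r2] at this
      · rw [hTT.r2, hTT.s2]
        have := key 0 (by omega)
        rwa [hTT.r0] at this
    · have h7 := key (y v) (by have := hTT.lt v h6; omega)
      rcases hTT.eq v h6 with ⟨h8, h9⟩ | ⟨h8, h9⟩
      · rw [h8, h9]
        exact h7
      · rw [h8, h9]
        exact h7.symm
  obtain ⟨θ, hθ⟩ : ∃ θ : ℝ, θ = 1 / (12 * ((N : ℝ) + 1)) := ⟨_, rfl⟩
  have hθ0 : 0 < θ := by
    rw [hθ]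
    positivity
  set K : ℕ := 24 * (N + 1) * (N + 3) + k + k * k with hKdef
  have hKθ : 2 * ((N : ℝ) + 3) ≤ θ * K := by
    have e1 : 2 * ((N : ℝ) + 3) = θ * (24 * ((N : ℝ) + 1) * ((N : ℝ) + 3)) := by
      rw [hθ]
      field_simp
      ring
    rw [e1]
    refine mul_le_mul_of_nonneg_left ?_ hθ0.le
    rw [hKdef]
    push_cast
    have : (0 : ℝ) ≤ (k : ℝ) + k * k := by positivity
    linarith
  have hpow : 0 < (θ / 2) ^ N := by positivity
  refine ⟨(K : ℝ) + 2 * (((N : ℝ) + 3) ^ 3 * k) / (θ / 2) ^ N, fun n H hH hno => ?_⟩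
  obtain ⟨T, hTH, hTK, hcard⟩ := clean K H hH
  have hT : ∀ e ∈ T, e.card = 3 := fun e he => hH e (hTH he)
  have hmain : ¬ (((N : ℝ) + 3) ^ 3 * (k * (n : ℝ) ^ 2) < (θ / 2) ^ N * (SL T / 2)) := by
    intro hlt
    obtain ⟨φ, hφ, hgood⟩ := fi_exists hTT hPc k hθ hTK hKθ hlt
    apply hno
    have hcore : Emb T G S (fun v => φ (i v)) := by
      refine ⟨?_, ?_, ?_⟩
      · intro u hu v hv h
        have h6 := fi_inj hT hφ (i u) (by have := (i u).2; omega) (i v) (by have := (i v).2; omega) h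
        exact hi u hu v hv (Fin.ext h6)
      · intro u _
        have h6 : ((i u : Fin (N + 3)) : ℕ) ≤ N + 2 := by have := (i u).2; omega
        exact ⟨_, mem_nbh.2 (vd_adj hTT hφ h6 (hTT.rs_le h6).1 (Or.inl rfl))⟩
      · intro u hu v hv h
        exact vd_adj hTT hφ (by have := (i u).2; omega) (by have := (i v).2; omega)
          ((hL _ _).1 (hS u hu v hv h))
    obtain ⟨f, hf⟩ := emb_close2 hcore (fun a b => by
        rcases hTK a b with h | h
        · exact Or.inl h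
        · exact Or.inr (by omega)) ⟨φ 0, φ 1, φ 2, hφ.1⟩ (by
      intro v hv x x' hx hx' hxS hxS' hne
      rcases h4 v hv x x' hx hx' hxS hxS' hne with h | ⟨h6, h7, h8, z, h9, h10⟩
      · exact Or.inl h
      · right
        refine ⟨h6, h7, ?_⟩
        have bz : (z : ℕ) ≤ N + 2 := by have := z.2; omega
        have bx : ((i x : Fin (N + 3)) : ℕ) ≤ N + 2 := by have := (i x).2; omega
        have bx' : ((i x' : Fin (N + 3)) : ℕ) ≤ N + 2 := by have := (i x').2; omega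
        have l1 := (hL _ _).1 h9
        have l2 := (hL _ _).1 h10
        have h11 := hgood z bz (i x) bx (i x') bx' l1 l2 (by rw [hc', hc']; exact h8)
        by_contra h12
        apply h11
        unfold bad
        rw [Finset.mem_filter]
        exact ⟨Finset.mem_univ _, vd_adj hTT hφ bz bx l1, vd_adj hTT hφ bz bx' l2, not_le.1 h12⟩) h5
    obtain ⟨g, hg1, hg2, hg3⟩ := expand hf (fun a b => by
        rcases hTK a b with h | h
        · exact Or.inl h
        · exact Or.inr (by omega)) (φ 0)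
    exact ⟨f, g, fun u v h => hf.1 u (Finset.mem_univ _) v (Finset.mem_univ _) h, hg1, hg2,
      fun u v h => hTH (hg3 u v h)⟩
  have h6 : (T.card : ℝ) ≤ 2 * (((N : ℝ) + 3) ^ 3 * k) / (θ / 2) ^ N * (n : ℝ) ^ 2 := by
    rw [not_lt] at hmain
    refine (fi_card_le T hT).trans ?_
    rw [div_mul_eq_mul_div, le_div_iff₀ hpow]
    linarith
  have h7 : (H.card : ℝ) ≤ T.card + (K : ℝ) * (n : ℝ) ^ 2 := by
    exact_mod_cast hcard
  calc (H.card : ℝ) ≤ T.card + (K : ℝ) * (n : ℝ) ^ 2 := h7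
    _ ≤ 2 * (((N : ℝ) + 3) ^ 3 * k) / (θ / 2) ^ N * (n : ℝ) ^ 2 + (K : ℝ) * (n : ℝ) ^ 2 := by
        linarith
    _ = ((K : ℝ) + 2 * (((N : ℝ) + 3) ^ 3 * k) / (θ / 2) ^ N) * (n : ℝ) ^ 2 := by ring

end Pool.Agent.TTR
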