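import Pool.Agent.TTR.Tm
import Pool.Agent.FAN.Tb

/-!
# Two-trees (MP_c7cb83_co), module Pr: a centre and two of its neighbours of different colours

The total weight of the maps `φ` with `φ z = ζ`, `φ p = a`, `φ q = b` is at most one, if `p`, `q` are
neighbours of `z` of different colours.  Walks with caps on the degrees start in `a` and in `b` and
move towards the root `ρ z` of the link tree of `z`; the last vertex of the 2-tree is summed out.
-/

set_option autoImplicit false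

namespace Pool.Agent.TTR

open Finset Pool.Agent.FAN

section walks

variable {V : Type} [Fintype V] [DecidableEq V]

omit [Fintype V] in
private theorem pr_ff_nonneg (nb : V → Finset V) (a : V) (s k : ℕ) (u : V) :
    0 ≤ FF nb a s k u := by
  induction s generalizing k u with
  | zero =>
    unfold FF
    split_ifs
    · exact zero_le_one
    · exact le_rfl
  | succ s ih =>
    unfold FF
    exact div_nonneg (Finset.sum_nonneg fun x _ => ih _ x) (Nat.cast_nonneg _)

omit [Fintype V] in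
private theorem pr_qq_nonneg (nb : V → Finset V) (a : V) (s : ℕ) (u : V) : 0 ≤ QQ nb a s u := by
  induction s generalizing u with
  | zero =>
    unfold QQ
    split_ifs
    · exact zero_le_one
    · exact le_rfl
  | succ s ih =>
    unfold QQ
    exact Finset.sum_nonneg fun x _ => div_nonneg (ih x) (Nat.cast_nonneg _)

private theorem pr_mul_div (c : ℕ) {r : ℝ} (hr : 0 ≤ r) : (c : ℝ) * (r / (c : ℝ)) ≤ r := by
  rcases Nat.eq_zero_or_pos c with h | h
  · rw [h]
    simpa using hr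
  · have h1 : (c : ℝ) ≠ 0 := by exact_mod_cast h.ne'
    rw [mul_div_cancel₀ r h1]

private theorem pr_qq_sum {nb : V → Finset V} (hs : ∀ u x, x ∈ nb u → u ∈ nb x) (a : V) (s : ℕ) :
    ∑ u, QQ nb a s u ≤ 1 := by
  induction s with
  | zero =>
    unfold QQ
    rw [Finset.sum_ite_eq' Finset.univ a (fun _ => (1 : ℝ)), if_pos (Finset.mem_univ _)]
  | succ s ih =>
    refine le_trans ?_ ih
    have h7 : ∀ u, QQ nb a (s + 1) u = ∑ x ∈ nb u, QQ nb a s x / ((nb x).card : ℝ) := by
      intro u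
      rw [QQ]
    rw [Finset.sum_congr rfl fun u _ => h7 u]
    have h8 : ∑ u, ∑ x ∈ nb u, QQ nb a s x / ((nb x).card : ℝ) =
        ∑ x, ∑ _u ∈ nb x, QQ nb a s x / ((nb x).card : ℝ) := by
      refine Finset.sum_comm' ?_
      intro u x
      constructor
      · rintro ⟨_, h9⟩
        exact ⟨hs _ _ h9, Finset.mem_univ _⟩
      · rintro ⟨h9, _⟩
        exact ⟨Finset.mem_univ _, hs _ _ h9⟩
    rw [h8]
    refine Finset.sum_le_sum fun x _ => ?_
    rw [Finset.sum_const, nsmul_eq_mul]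
    exact pr_mul_div _ (pr_qq_nonneg nb a s x)

omit [Fintype V] in
private theorem pr_le {nb : V → Finset V} (hs : ∀ u x, x ∈ nb u → u ∈ nb x) (a : V) (s k : ℕ)
    (u : V) : ((nb u).card : ℝ) * FF nb a s k u ≤ ((nb a).card : ℝ) * QQ nb a s u := by
  induction s generalizing k u with
  | zero =>
    unfold FF QQ
    split_ifs with h
    · rw [h]
    · simp
  | succ s ih =>
    rw [FF, QQ]
    refine (pr_mul_div _ (Finset.sum_nonneg fun x _ => pr_ff_nonneg nb a s _ x)).trans ?_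
    rw [Finset.mul_sum]
    refine (Finset.sum_le_sum_of_subset_of_nonneg (Finset.filter_subset _ (nb u))
      fun x _ _ => pr_ff_nonneg nb a s _ x).trans ?_
    refine Finset.sum_le_sum fun x hx => ?_
    have h1 : (0 : ℝ) < ((nb x).card : ℝ) := by
      exact_mod_cast Finset.card_pos.2 ⟨u, hs _ _ hx⟩
    rw [← mul_div_assoc, le_div_iff₀ h1, mul_comm]
    exact ih _ x

omit [Fintype V] in
private theorem pr_deg {nb : V → Finset V} (a : V) (s k : ℕ) (u : V)
    (h : FF nb a (2 * s) k u ≠ 0) : (nb a).card ≤ (nb u).card := by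
  induction s generalizing k u with
  | zero =>
    have h1 : u = a := by
      by_contra h1
      refine h ?_
      rw [Nat.mul_zero, FF, if_neg h1]
    rw [h1]
  | succ s ih =>
    have h0 : 2 * (s + 1) = 2 * s + 1 + 1 := by ring
    rw [h0, FF] at h
    have h1 : ∑ x ∈ ch nb k u, FF nb a (2 * s + 1) (nb u).card x ≠ 0 := by
      intro h1
      rw [h1, zero_div] at h
      exact h rfl
    obtain ⟨x, _, h2⟩ := Finset.exists_ne_zero_of_sum_ne_zero h1
    rw [FF] at h2
    have h3 : ∑ y ∈ ch nb (nb u).card x, FF nb a (2 * s) (nb x).card y ≠ 0 := by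
      intro h3
      rw [h3, zero_div] at h2
      exact h2 rfl
    obtain ⟨y, hy, h4⟩ := Finset.exists_ne_zero_of_sum_ne_zero h3
    exact (ih _ y h4).trans (Finset.mem_filter.1 hy).2

private theorem pr_even {nb : V → Finset V} (hs : ∀ u x, x ∈ nb u → u ∈ nb x) (a : V) (s k : ℕ)
    (u : V) : FF nb a (2 * s) k u ≤ QQ nb a (2 * s) u := by
  by_cases h : FF nb a (2 * s) k u = 0
  · rw [h]
    exact pr_qq_nonneg nb a _ u
  · rcases Nat.eq_zero_or_pos (nb u).card with h0 | h0
    · cases s with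
      | zero =>
        rw [Nat.mul_zero, FF, QQ]
      | succ s =>
        exfalso
        have h1 : 2 * (s + 1) = 2 * s + 1 + 1 := by ring
        rw [h1, FF, h0] at h
        simp at h
    · have h1 : (0 : ℝ) < ((nb u).card : ℝ) := by exact_mod_cast h0
      have h2 : ((nb a).card : ℝ) ≤ ((nb u).card : ℝ) := by exact_mod_cast pr_deg a s k u h
      have h3 := pr_le hs a (2 * s) k u
      have h4 := mul_le_mul_of_nonneg_right h2 (pr_qq_nonneg nb a (2 * s) u)
      exact le_of_mul_le_mul_left (h3.trans h4) h1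

private theorem pr_odd {nb : V → Finset V} (hs : ∀ u x, x ∈ nb u → u ∈ nb x) (a : V) (s k : ℕ)
    (u : V) : ((nb u).card : ℝ) * FF nb a (2 * s + 1) k u ≤ 1 := by
  rw [FF]
  refine (pr_mul_div _ (Finset.sum_nonneg fun x _ => pr_ff_nonneg nb a _ _ x)).trans ?_
  refine (Finset.sum_le_sum fun x _ => pr_even hs a s _ x).trans ?_
  refine le_trans ?_ (pr_qq_sum hs a (2 * s))
  exact Finset.sum_le_sum_of_subset_of_nonneg (Finset.subset_univ _)
    fun x _ _ => pr_qq_nonneg nb a _ x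

private theorem pr_prod {nb : V → Finset V} (hs : ∀ u x, x ∈ nb u → u ∈ nb x) (a b : V)
    (s t k l : ℕ) (u : V) (hu : 0 < (nb u).card) :
    FF nb a (2 * s) k u * FF nb b (2 * t + 1) l u ≤ QQ nb a (2 * s) u / ((nb u).card : ℝ) := by
  have h1 : (0 : ℝ) < ((nb u).card : ℝ) := by exact_mod_cast hu
  have h2 : FF nb b (2 * t + 1) l u ≤ 1 / ((nb u).card : ℝ) := by
    rw [le_div_iff₀ h1, mul_comm]
    exact pr_odd hs b t l u
  rw [div_eq_mul_one_div]
  exact mul_le_mul (pr_even hs a s k u) h2 (pr_ff_nonneg nb b _ _ u) (pr_qq_nonneg nb a _ u)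

/-- walks of different parity which meet -/
private theorem pr_meet {nb : V → Finset V} (hs : ∀ u x, x ∈ nb u → u ∈ nb x) (a b : V) {s t : ℕ}
    (h : ¬ Even (s + t)) : ∃ R : V → ℝ, (∀ u, 0 ≤ R u) ∧ ∑ u, R u ≤ 1 ∧
      ∀ k l u, 0 < (nb u).card → FF nb a s k u * FF nb b t l u ≤ R u / ((nb u).card : ℝ) := by
  rcases Nat.even_or_odd s with h1 | h1
  · have h2 : Odd t := by
      rw [← Nat.not_even_iff_odd]
      exact fun h2 => h (h1.add h2)
    obtain ⟨s', hs'⟩ := h1
    obtain ⟨t', ht'⟩ := h2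
    have e1 : s = 2 * s' := by omega
    subst e1 ht'
    exact ⟨QQ nb a (2 * s'), pr_qq_nonneg nb a _, pr_qq_sum hs a _, fun k l u hu =>
      pr_prod hs a b s' t' k l u hu⟩
  · have h2 : Even t := by
      rw [← Nat.not_odd_iff_even]
      exact fun h2 => h (h1.add_odd h2)
    obtain ⟨s', hs'⟩ := h1
    obtain ⟨t', ht'⟩ := h2
    have e1 : t = 2 * t' := by omega
    subst e1 hs'
    refine ⟨QQ nb b (2 * t'), pr_qq_nonneg nb b _, pr_qq_sum hs b _, fun k l u hu => ?_⟩
    rw [mul_comm]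
    exact pr_prod hs b a t' s' l k u hu

end walks

variable {n : ℕ} {ρ σ y : ℕ → ℕ}

/-- the parent of `p` in the link tree of `z` -/
def pr (ρ σ : ℕ → ℕ) (z p : ℕ) : ℕ := if p = σ z then ρ z else if ρ p = z then σ p else ρ p

/-- the cap for the degrees of the children of `p` in the link tree of `z` -/
def cp (T : Finset (Finset (Fin n))) (ρ σ : ℕ → ℕ) (ζ : Fin n) (φ : ℕ → Fin n) (z p : ℕ) : ℕ :=
  if p = ρ z then n else (lk T ζ (φ (pr ρ σ z p))).card

theorem vd_tri (h : TT ρ σ y) {T : Finset (Finset (Fin n))} {N : ℕ} {φ : ℕ → Fin n}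
    (hφ : Vd T ρ σ y N φ) {v : ℕ} (hv : v ≤ N + 2) : φ (σ v) ∈ lk T (φ v) (φ (ρ v)) := by
  rcases Nat.lt_or_ge v 3 with h1 | h1
  · have h2 : v = 0 ∨ v = 1 ∨ v = 2 := by omega
    have h3 := hφ.1
    rcases h2 with rfl | rfl | rfl
    · rw [h.r0, h.s0]
      exact h3
    · rw [h.r1, h.s1]
      rw [lk_comm] at h3
      exact lk_rot h3
    · rw [h.r2, h.s2, lk_comm]
      exact lk_rot h3
  · have h3 := hφ.2 v h1 hv
    have h4 : φ v ∈ lk T (φ (y v)) (φ (ρ (y v))) := (Finset.mem_filter.1 h3).1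
    rcases h.eq v h1 with ⟨h5, h6⟩ | ⟨h5, h6⟩
    · rw [h5, h6, lk_comm]
      exact lk_rot h4
    · rw [h5, h6, lk_comm]
      rw [lk_comm] at h4
      exact lk_rot h4

theorem vd_adj (h : TT ρ σ y) {T : Finset (Finset (Fin n))} {N : ℕ} {φ : ℕ → Fin n}
    (hφ : Vd T ρ σ y N φ) {z p : ℕ} (hz : z ≤ N + 2) (hp : p ≤ N + 2) (hl : Lk ρ σ z p) :
    (lk T (φ z) (φ p)).Nonempty := by
  rcases hl with rfl | rfl | ⟨h3, rfl | rfl⟩
  · exact ⟨_, vd_tri h hφ hz⟩
  · exact ⟨_, lk_rot (vd_tri h hφ hz)⟩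
  · rw [lk_comm]
    exact ⟨_, vd_tri h hφ hp⟩
  · rw [lk_comm]
    exact ⟨_, lk_rot (vd_tri h hφ hp)⟩

private theorem pr_same (h : TT ρ σ y) (T : Finset (Finset (Fin n))) {N z p : ℕ} (hz : z ≤ N + 2)
    (hp : p ≤ N + 2) (hl : Lk ρ σ z p) (ζ a b : Fin n) {s t : ℕ} (hst : ¬ Even (s + t)) :
    WW T ρ σ y N (fun φ => if φ z = ζ then FF (lk T ζ) a s (cp T ρ σ ζ φ z p) (φ p) *
      FF (lk T ζ) b t (cp T ρ σ ζ φ z p) (φ p) else 0) ≤ 1 := by
  obtain ⟨R, hR1, hR2, hR3⟩ := pr_meet (nb := lk T ζ) (fun u x hx => lk_rot hx) a b hst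
  have h1 : WW T ρ σ y N (fun φ => if φ z = ζ then FF (lk T ζ) a s (cp T ρ σ ζ φ z p) (φ p) *
      FF (lk T ζ) b t (cp T ρ σ ζ φ z p) (φ p) else 0) ≤
      WW T ρ σ y N (fun φ => if φ z = ζ then (fun u => R u / ((lk T ζ u).card : ℝ)) (φ p) else 0) := by
    refine ww_mono h T N fun φ hφ => ?_
    by_cases h2 : φ z = ζ
    · rw [if_pos h2, if_pos h2]
      refine hR3 _ _ _ ?_
      rw [← h2]
      exact Finset.card_pos.2 (vd_adj h hφ hz hp hl)
    · rw [if_neg h2, if_neg h2]
  refine h1.trans ((em h T hz hp hl ζ (g := fun u => R u / ((lk T ζ u).card : ℝ)) fun u =>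
    div_nonneg (hR1 u) (Nat.cast_nonneg _)).trans ?_)
  exact (Finset.sum_le_sum fun u _ => pr_mul_div _ (hR1 u)).trans hR2

private theorem pr_ch_top (T : Finset (Finset (Fin n))) (ζ u : Fin n) :
    ch (lk T ζ) n u = lk T ζ u := by
  unfold ch
  refine Finset.filter_true_of_mem fun x _ => ?_
  exact (Finset.card_le_univ _).trans (by rw [Fintype.card_fin])

private theorem pr_base (h : TT ρ σ y) (T : Finset (Finset (Fin n))) {N z : ℕ} (hz : z ≤ N + 2)
    (hne : σ z ≠ ρ z) (ζ a b : Fin n) {s t : ℕ} (hst : Even (s + t)) :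
    WW T ρ σ y N (fun φ => if φ z = ζ then FF (lk T ζ) a s (cp T ρ σ ζ φ z (ρ z)) (φ (ρ z)) *
      FF (lk T ζ) b t (cp T ρ σ ζ φ z (σ z)) (φ (σ z)) else 0) ≤ 1 := by
  have hst' : ¬ Even (s + (t + 1)) := by
    rw [← add_assoc, Nat.even_add_one]
    exact fun h => h hst
  obtain ⟨R, hR1, hR2, hR3⟩ := pr_meet (nb := lk T ζ) (fun u x hx => lk_rot hx) a b hst'
  have e1 : (fun φ : ℕ → Fin n => if φ z = ζ then FF (lk T ζ) a s (cp T ρ σ ζ φ z (ρ z)) (φ (ρ z)) *
      FF (lk T ζ) b t (cp T ρ σ ζ φ z (σ z)) (φ (σ z)) else 0) =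
      (fun φ => (fun x u w => if x = ζ then FF (lk T ζ) a s n u *
        FF (lk T ζ) b t (lk T ζ u).card w else 0) (φ z) (φ (ρ z)) (φ (σ z))) := by
    funext φ
    have h1 : cp T ρ σ ζ φ z (ρ z) = n := by rw [cp, if_pos rfl]
    have h2 : cp T ρ σ ζ φ z (σ z) = (lk T ζ (φ (ρ z))).card := by
      rw [cp, if_neg hne, pr, if_pos rfl]
    rw [h1, h2]
  rw [e1]
  refine (tm h T N hz (G := fun x u w => if x = ζ then FF (lk T ζ) a s n u *
    FF (lk T ζ) b t (lk T ζ u).card w else 0) fun x u w => ?_).trans ?_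
  · split_ifs
    · exact mul_nonneg (pr_ff_nonneg _ _ _ _ _) (pr_ff_nonneg _ _ _ _ _)
    · exact le_rfl
  · rw [← ts_eq, Finset.sum_eq_single ζ]
    · refine le_trans (Finset.sum_le_sum fun u _ => ?_) hR2
      have h3 : ∀ w ∈ lk T ζ u, (if ζ = ζ then FF (lk T ζ) a s n u *
          FF (lk T ζ) b t (lk T ζ u).card w else 0) = FF (lk T ζ) a s n u *
          FF (lk T ζ) b t (lk T ζ u).card w := fun w _ => if_pos rfl
      rw [Finset.sum_congr rfl h3, ← Finset.mul_sum]
      rcases Nat.eq_zero_or_pos (lk T ζ u).card with h4 | h4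
      · rw [Finset.card_eq_zero.1 h4, Finset.sum_empty, mul_zero]
        exact hR1 u
      · have h5 : (0 : ℝ) < ((lk T ζ u).card : ℝ) := by exact_mod_cast h4
        have h6 := hR3 n n u h4
        rw [FF, pr_ch_top, ← mul_div_assoc, div_le_div_iff_of_pos_right h5] at h6
        exact h6
    · intro x _ hx
      refine Finset.sum_eq_zero fun u _ => Finset.sum_eq_zero fun u' _ => ?_
      rw [if_neg hx]
    · intro h3
      exact absurd (Finset.mem_univ _) h3

/-- the colours of the vertices of a triangle are different -/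
def Pc (ρ σ : ℕ → ℕ) (c : ℕ → Fin 3) (N : ℕ) : Prop :=
  ∀ v ≤ N + 2, c v ≠ c (ρ v) ∧ c v ≠ c (σ v) ∧ c (ρ v) ≠ c (σ v)

private theorem pr_col {c : ℕ → Fin 3} {N : ℕ} (hc : Pc ρ σ c N) {z p : ℕ} (hz : z ≤ N + 2)
    (hp : p ≤ N + 2) (hl : Lk ρ σ z p) : c z ≠ c p := by
  rcases hl with rfl | rfl | ⟨-, rfl | rfl⟩
  · exact (hc z hz).1
  · exact (hc z hz).2.1
  · exact fun e => (hc p hp).1 e.symm
  · exact fun e => (hc p hp).2.1 e.symm

private theorem pr_fin3 (a b d e : Fin 3) (h1 : a ≠ b) (h2 : a ≠ d) (h3 : a ≠ e) (h4 : d ≠ e) :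
    (b ≠ d ↔ ¬ b ≠ e) := by
  revert a b d e
  decide

/-- the two old neighbours of a new vertex -/
private theorem pr_split (h : TT ρ σ y) {v z : ℕ} (hv : 3 ≤ v) (hz : ρ v = z ∨ σ v = z) (hvz : v ≠ σ z) :
    (z = y v ∧ pr ρ σ z v = ρ (y v)) ∨ (z = ρ (y v) ∧ pr ρ σ z v = y v) := by
  unfold pr
  rw [if_neg hvz]
  by_cases h1 : ρ v = z
  · rw [if_pos h1]
    rcases h.eq v hv with ⟨h2, h3⟩ | ⟨h2, h3⟩
    · exact Or.inl ⟨by omega, h3⟩
    · exact Or.inr ⟨by omega, h3⟩
  · rw [if_neg h1]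
    have h4 : σ v = z := hz.resolve_left h1
    rcases h.eq v hv with ⟨h2, h3⟩ | ⟨h2, h3⟩
    · exact Or.inr ⟨by omega, h2⟩
    · exact Or.inl ⟨by omega, h2⟩

/-- the cap of the new vertex is the cap of the link tree of `ρ (y v)` -/
private theorem pr_cap (h : TT ρ σ y) (T : Finset (Finset (Fin n))) (ζ : Fin n) (φ : ℕ → Fin n)
    (w : ℕ) : (lk T ζ (φ (σ w))).card ≤ cp T ρ σ ζ φ (ρ w) w := by
  unfold cp
  by_cases h1 : w = ρ (ρ w)
  · rw [if_pos h1]
    exact (Finset.card_le_univ _).trans (by rw [Fintype.card_fin])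
  · rw [if_neg h1]
    have h2 : pr ρ σ (ρ w) w = σ w := by
      unfold pr
      rw [if_pos (rfl : ρ w = ρ w)]
      by_cases h3 : w = σ (ρ w)
      · rw [if_pos h3]
        rcases Nat.lt_or_ge w 3 with h4 | h4
        · have h5 : w = 0 ∨ w = 1 ∨ w = 2 := by omega
          rcases h5 with rfl | rfl | rfl
          · rw [h.r0, h.s0, h.r1]
          · rw [h.r1, h.s1, h.r2]
          · rw [h.r2, h.s2, h.r0]
        · exfalso
          have h5 := (h.rlt h4).1
          have h6 := (h.bd (ρ w)).2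
          omega
      · rw [if_neg h3]
    rw [h2]

private theorem pr_lk (h : TT ρ σ y) {w : ℕ} : Lk ρ σ (ρ w) w := by
  rcases Nat.lt_or_ge w 3 with h4 | h4
  · have h5 : w = 0 ∨ w = 1 ∨ w = 2 := by omega
    rcases h5 with rfl | rfl | rfl
    · rw [h.r0]; exact Or.inr (Or.inl h.s1.symm)
    · rw [h.r1]; exact Or.inr (Or.inl h.s2.symm)
    · rw [h.r2]; exact Or.inr (Or.inl h.s0.symm)
  · exact Or.inr (Or.inr ⟨h4, Or.inl rfl⟩)

private theorem pr_sr (h : TT ρ σ y) (z : ℕ) : σ z ≠ ρ z := by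
  induction z using Nat.strong_induction_on with
  | _ z ih =>
    rcases Nat.lt_or_ge z 3 with h4 | h4
    · have h5 : z = 0 ∨ z = 1 ∨ z = 2 := by omega
      rcases h5 with rfl | rfl | rfl
      · rw [h.r0, h.s0]; omega
      · rw [h.r1, h.s1]; omega
      · rw [h.r2, h.s2]; omega
    · have h6 : ρ (y z) ≠ y z := by
        rcases Nat.lt_or_ge (y z) 3 with h7 | h7
        · have h5 : y z = 0 ∨ y z = 1 ∨ y z = 2 := by omega
          rcases h5 with h5 | h5 | h5
          · rw [h5, h.r0]; omega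
          · rw [h5, h.r1]; omega
          · rw [h5, h.r2]; omega
        · have := (h.rlt h7).1
          omega
      rcases h.eq z h4 with ⟨h2, h3⟩ | ⟨h2, h3⟩
      · rw [h2, h3]; exact h6
      · rw [h2, h3]; exact fun e => h6 e.symm

/-- one step: the last vertex is a neighbour of the centre -/
private theorem pr_step (h : TT ρ σ y) (T : Finset (Finset (Fin n))) {N z p : ℕ} (hz : z ≤ N + 2)
    (hp : p ≤ N + 2) (hv : ρ (N + 3) = z ∨ σ (N + 3) = z) (ζ a b : Fin n) (s t : ℕ) :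
    WW T ρ σ y (N + 1) (fun φ => if φ z = ζ then FF (lk T ζ) a s (cp T ρ σ ζ φ z p) (φ p) *
      FF (lk T ζ) b t (cp T ρ σ ζ φ z (N + 3)) (φ (N + 3)) else 0) ≤
    WW T ρ σ y N (fun φ => if φ z = ζ then FF (lk T ζ) a s (cp T ρ σ ζ φ z p) (φ p) *
      FF (lk T ζ) b (t + 1) (cp T ρ σ ζ φ z (pr ρ σ z (N + 3))) (φ (pr ρ σ z (N + 3))) else 0) := by
  have hzb := h.bd z
  have hpb := h.bd p
  have hvr : N + 3 ≠ ρ z := by omega
  have hvs : N + 3 ≠ σ z := by omega
  have hvb := h.rlt (v := N + 3) (by omega)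
  have hylt := h.ylt (v := N + 3) (by omega)
  have hprp : pr ρ σ z p ≤ N + 2 := by
    unfold pr
    split_ifs <;> omega
  have hprv : pr ρ σ z (N + 3) ≤ N + 2 := by
    unfold pr
    split_ifs <;> omega
  rw [WW]
  refine ww_mono h T N fun φ hφ => ?_
  by_cases hζ : φ z = ζ
  · rw [if_pos hζ]
    have hu : ∀ i ≤ N + 2, ∀ x, Function.update φ (N + 3) x i = φ i := fun i hi x =>
      Function.update_of_ne (by omega) _ _
    have e1 : ∀ x, cp T ρ σ ζ (Function.update φ (N + 3) x) z p = cp T ρ σ ζ φ z p := by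
      intro x
      unfold cp
      rw [hu _ hprp]
    have e2 : ∀ x, cp T ρ σ ζ (Function.update φ (N + 3) x) z (N + 3) =
        (lk T ζ (φ (pr ρ σ z (N + 3)))).card := by
      intro x
      unfold cp
      rw [if_neg hvr, hu _ hprv]
    have e3 : ∀ x ∈ Ch T ρ σ y φ (N + 3), (if Function.update φ (N + 3) x z = ζ then
        FF (lk T ζ) a s (cp T ρ σ ζ (Function.update φ (N + 3) x) z p) (Function.update φ (N + 3) x p) *
        FF (lk T ζ) b t (cp T ρ σ ζ (Function.update φ (N + 3) x) z (N + 3))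
          (Function.update φ (N + 3) x (N + 3)) else 0) =
        FF (lk T ζ) a s (cp T ρ σ ζ φ z p) (φ p) *
        FF (lk T ζ) b t (lk T ζ (φ (pr ρ σ z (N + 3)))).card x := by
      intro x _
      rw [hu z hz, if_pos hζ, e1, e2, hu p hp, Function.update_self]
    rw [Finset.sum_congr rfl e3, ← Finset.mul_sum, mul_div_assoc]
    refine mul_le_mul_of_nonneg_left ?_ (pr_ff_nonneg _ _ _ _ _)
    rw [FF]
    -- the choices are among the children
    have hsub : Ch T ρ σ y φ (N + 3) ⊆ ch (lk T ζ) (cp T ρ σ ζ φ z (pr ρ σ z (N + 3)))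
        (φ (pr ρ σ z (N + 3))) ∧
        (lk T (φ (y (N + 3))) (φ (ρ (y (N + 3))))).card = (lk T ζ (φ (pr ρ σ z (N + 3)))).card := by
      rcases pr_split h (by omega) hv hvs with ⟨h5, h6⟩ | ⟨h5, h6⟩
      · rw [h6]
        have e4 : cp T ρ σ ζ φ z (ρ (y (N + 3))) = n := by
          unfold cp
          rw [if_pos (by rw [h5])]
        rw [e4, pr_ch_top, ← hζ, h5]
        exact ⟨Finset.filter_subset _ _, rfl⟩
      · rw [h6]
        have e4 : φ (ρ (y (N + 3))) = ζ := by rw [← h5]; exact hζ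
        constructor
        · intro x hx
          obtain ⟨h7, h8, -⟩ := Finset.mem_filter.1 hx
          rw [e4] at h7 h8
          unfold ch
          rw [Finset.mem_filter]
          refine ⟨by rw [lk_comm]; exact h7, h8.trans ?_⟩
          rw [h5]
          exact pr_cap h T ζ φ (y (N + 3))
        · rw [e4, lk_comm]
    rw [hsub.2]
    exact div_le_div_of_nonneg_right (Finset.sum_le_sum_of_subset_of_nonneg hsub.1
      fun x _ _ => pr_ff_nonneg _ _ _ _ _) (Nat.cast_nonneg _)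
  · rw [if_neg hζ]
    refine le_of_eq ?_
    have e3 : ∀ x ∈ Ch T ρ σ y φ (N + 3), (if Function.update φ (N + 3) x z = ζ then
        FF (lk T ζ) a s (cp T ρ σ ζ (Function.update φ (N + 3) x) z p) (Function.update φ (N + 3) x p) *
        FF (lk T ζ) b t (cp T ρ σ ζ (Function.update φ (N + 3) x) z (N + 3))
          (Function.update φ (N + 3) x (N + 3)) else 0) = 0 := by
      intro x _
      rw [Function.update_of_ne (by omega), if_neg hζ]
    rw [Finset.sum_congr rfl e3, Finset.sum_const_zero, zero_div]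

private theorem pr_comm (T : Finset (Finset (Fin n))) (ζ a b : Fin n) (N z p q s t : ℕ) :
    WW T ρ σ y N (fun φ => if φ z = ζ then FF (lk T ζ) a s (cp T ρ σ ζ φ z p) (φ p) *
      FF (lk T ζ) b t (cp T ρ σ ζ φ z q) (φ q) else 0) =
    WW T ρ σ y N (fun φ => if φ z = ζ then FF (lk T ζ) b t (cp T ρ σ ζ φ z q) (φ q) *
      FF (lk T ζ) a s (cp T ρ σ ζ φ z p) (φ p) else 0) := by
  congr 1
  funext φ
  rw [mul_comm]

private theorem pr_dir (h : TT ρ σ y) (T : Finset (Finset (Fin n))) {c : ℕ → Fin 3} {N : ℕ}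
    (hc : Pc ρ σ c N) {z p q : ℕ} (hz : z ≤ N + 2) (hp : p = ρ z ∨ p = σ z) (hq : q = ρ z ∨ q = σ z)
    (ζ a b : Fin n) {s t : ℕ} (hst : c p ≠ c q ↔ Even (s + t)) :
    WW T ρ σ y N (fun φ => if φ z = ζ then FF (lk T ζ) a s (cp T ρ σ ζ φ z p) (φ p) *
      FF (lk T ζ) b t (cp T ρ σ ζ φ z q) (φ q) else 0) ≤ 1 := by
  obtain ⟨hr, hs⟩ := h.rs_le hz
  rcases hp with rfl | rfl <;> rcases hq with rfl | rfl
  · exact pr_same h T hz hr (Or.inl rfl) ζ a b fun he => (hst.2 he) rfl
  · exact pr_base h T hz (pr_sr h z) ζ a b (hst.1 (hc z hz).2.2)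
  · rw [pr_comm]
    refine pr_base h T hz (pr_sr h z) ζ b a ?_
    rw [add_comm]
    exact hst.1 fun e => (hc z hz).2.2 e.symm
  · exact pr_same h T hz hs (Or.inr (Or.inl rfl)) ζ a b fun he => (hst.2 he) rfl

/-- one step of the induction -/
private theorem pr_ind (h : TT ρ σ y) (T : Finset (Finset (Fin n))) (ζ : Fin n) {c : ℕ → Fin 3}
    {N : ℕ} (hc : Pc ρ σ c (N + 1)) (ih : ∀ (a b : Fin n) (z p q s t : ℕ), z ≤ N + 2 → p ≤ N + 2 →
    q ≤ N + 2 → Lk ρ σ z p → Lk ρ σ z q → (c p ≠ c q ↔ Even (s + t)) →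
    WW T ρ σ y N (fun φ => if φ z = ζ then FF (lk T ζ) a s (cp T ρ σ ζ φ z p) (φ p) *
      FF (lk T ζ) b t (cp T ρ σ ζ φ z q) (φ q) else 0) ≤ 1) (a b : Fin n) {z p s t : ℕ}
    (hz : z ≤ N + 2) (hp : p ≤ N + 2) (hlp : Lk ρ σ z p) (hlq : Lk ρ σ z (N + 3))
    (hst : c p ≠ c (N + 3) ↔ Even (s + t)) :
    WW T ρ σ y (N + 1) (fun φ => if φ z = ζ then FF (lk T ζ) a s (cp T ρ σ ζ φ z p) (φ p) *
      FF (lk T ζ) b t (cp T ρ σ ζ φ z (N + 3)) (φ (N + 3)) else 0) ≤ 1 := by
  have hzb := h.bd z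
  have hvb := h.rlt (v := N + 3) (by omega)
  have hylt := h.ylt (v := N + 3) (by omega)
  have hv : ρ (N + 3) = z ∨ σ (N + 3) = z := by
    rcases hlq with h1 | h1 | h1
    · omega
    · omega
    · exact h1.2
  have hvs : N + 3 ≠ σ z := by omega
  refine (pr_step h T hz hp hv ζ a b s t).trans ?_
  have hq : pr ρ σ z (N + 3) ≤ N + 2 := by
    unfold pr
    split_ifs <;> omega
  have hl : Lk ρ σ z (pr ρ σ z (N + 3)) := by
    rcases pr_split h (by omega) hv hvs with ⟨h5, h6⟩ | ⟨h5, h6⟩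
    · rw [h6, h5]
      exact Or.inl rfl
    · rw [h6, h5]
      exact pr_lk h
  refine ih a b z p (pr ρ σ z (N + 3)) s (t + 1) hz hp hq hlp hl ?_
  have h7 : c (N + 3) ≠ c (pr ρ σ z (N + 3)) := by
    unfold pr
    rw [if_neg hvs]
    have h8 := hc (N + 3) (by omega)
    split_ifs
    · exact h8.2.1
    · exact h8.1
  have h9 := pr_fin3 (c z) (c p) (c (N + 3)) (c (pr ρ σ z (N + 3)))
    (pr_col hc (by omega) (by omega) hlp) (pr_col hc (by omega) (by omega) hlq)
    (pr_col hc (by omega) (by omega) hl) h7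
  have h4 : Even (s + (t + 1)) ↔ ¬ Even (s + t) := by
    rw [← add_assoc, Nat.even_add_one]
  rw [h4, ← hst, h9, not_not]

private theorem pr_main (h : TT ρ σ y) (T : Finset (Finset (Fin n))) (ζ : Fin n) {c : ℕ → Fin 3}
    (N : ℕ) : Pc ρ σ c N → ∀ (a b : Fin n) (z p q s t : ℕ), z ≤ N + 2 → p ≤ N + 2 → q ≤ N + 2 →
    Lk ρ σ z p → Lk ρ σ z q → (c p ≠ c q ↔ Even (s + t)) →
    WW T ρ σ y N (fun φ => if φ z = ζ then FF (lk T ζ) a s (cp T ρ σ ζ φ z p) (φ p) *
      FF (lk T ζ) b t (cp T ρ σ ζ φ z q) (φ q) else 0) ≤ 1 := by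
  induction N with
  | zero =>
    intro hc a b z p q s t hz hp hq hlp hlq hst
    refine pr_dir h T hc hz ?_ ?_ ζ a b hst
    · rcases hlp with h1 | h1 | h1
      · exact Or.inl h1
      · exact Or.inr h1
      · omega
    · rcases hlq with h1 | h1 | h1
      · exact Or.inl h1
      · exact Or.inr h1
      · omega
  | succ N ih =>
    intro hc a b z p q s t hz hp hq hlp hlq hst
    have hc' : Pc ρ σ c N := fun v hv => hc v (by omega)
    by_cases hpq : p = q
    · subst hpq
      exact pr_same h T hz hp hlp ζ a b fun he => (hst.2 he) rfl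
    · rcases Nat.lt_or_ge z (N + 3) with hz1 | hz1
      · rcases Nat.lt_or_ge p (N + 3) with hp1 | hp1
        · rcases Nat.lt_or_ge q (N + 3) with hq1 | hq1
          · refine (ww_step h T N (fun φ => ?_) fun φ x => ?_).trans
              (ih hc' a b z p q s t (by omega) (by omega) (by omega) hlp hlq hst)
            · split_ifs
              · exact mul_nonneg (pr_ff_nonneg _ _ _ _ _) (pr_ff_nonneg _ _ _ _ _)
              · exact le_rfl
            · have hzb := h.bd z
              have hpb := h.bd p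
              have hqb := h.bd q
              have h1 : pr ρ σ z p ≤ N + 2 := by
                unfold pr
                split_ifs <;> omega
              have h2 : pr ρ σ z q ≤ N + 2 := by
                unfold pr
                split_ifs <;> omega
              have e1 : cp T ρ σ ζ (Function.update φ (N + 3) x) z p = cp T ρ σ ζ φ z p := by
                unfold cp
                rw [Function.update_of_ne (by omega)]
              have e2 : cp T ρ σ ζ (Function.update φ (N + 3) x) z q = cp T ρ σ ζ φ z q := by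
                unfold cp
                rw [Function.update_of_ne (by omega)]
              rw [e1, e2, Function.update_of_ne (by omega), Function.update_of_ne (by omega),
                Function.update_of_ne (by omega)]
          · have hq2 : q = N + 3 := by omega
            subst hq2
            exact pr_ind h T ζ hc (ih hc') a b (by omega) (by omega) hlp hlq hst
        · have hp2 : p = N + 3 := by omega
          subst hp2
          rw [pr_comm]
          refine pr_ind h T ζ hc (ih hc') b a (by omega) (by omega) hlq hlp ?_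
          have h4 : Even (t + s) ↔ Even (s + t) := by rw [Nat.add_comm t s]
          rw [h4, ← hst]
          exact ne_comm
      · have hz2 : z = N + 3 := by omega
        subst hz2
        refine pr_dir h T hc hz ?_ ?_ ζ a b hst
        · rcases hlp with h1 | h1 | h1
          · exact Or.inl h1
          · exact Or.inr h1
          · have := h.rlt h1.1
            omega
        · rcases hlq with h1 | h1 | h1
          · exact Or.inl h1
          · exact Or.inr h1
          · have := h.rlt h1.1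
            omega

/-- a centre and two neighbours of different colours -/
theorem ww_pair (h : TT ρ σ y) (T : Finset (Finset (Fin n))) {c : ℕ → Fin 3} {N : ℕ}
    (hc : Pc ρ σ c N) {z p q : ℕ} (hz : z ≤ N + 2) (hp : p ≤ N + 2) (hq : q ≤ N + 2)
    (hlp : Lk ρ σ z p) (hlq : Lk ρ σ z q) (hpq : c p ≠ c q) (ζ a b : Fin n) :
    WW T ρ σ y N (fun φ => if φ z = ζ ∧ φ p = a ∧ φ q = b then 1 else 0) ≤ 1 := by
  have h1 := pr_main h T ζ N hc a b z p q 0 0 hz hp hq hlp hlq (by simpa using hpq)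
  refine le_trans (le_of_eq ?_) h1
  congr 1
  funext φ
  rw [FF, FF]
  by_cases h2 : φ z = ζ
  · by_cases h3 : φ p = a
    · by_cases h4 : φ q = b
      · rw [if_pos ⟨h2, h3, h4⟩, if_pos h2, if_pos h3, if_pos h4, one_mul]
      · rw [if_neg (fun h5 => h4 h5.2.2), if_pos h2, if_neg h4, mul_zero]
    · rw [if_neg (fun h5 => h3 h5.2.1), if_pos h2, if_neg h3, zero_mul]
  · rw [if_neg (fun h5 => h2 h5.1), if_neg h2]

/-- the maps for which the pair `φ p`, `φ q` is in a small set depending on `φ z` -/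
theorem ww_bad (h : TT ρ σ y) (T : Finset (Finset (Fin n))) {c : ℕ → Fin 3} {N : ℕ}
    (hc : Pc ρ σ c N) {z p q : ℕ} (hz : z ≤ N + 2) (hp : p ≤ N + 2) (hq : q ≤ N + 2)
    (hlp : Lk ρ σ z p) (hlq : Lk ρ σ z q) (hpq : c p ≠ c q) (B : Fin n → Finset (Fin n × Fin n)) :
    WW T ρ σ y N (fun φ => if (φ p, φ q) ∈ B (φ z) then 1 else 0) ≤ ∑ ζ, ((B ζ).card : ℝ) := by
  have e1 : (fun φ : ℕ → Fin n => if (φ p, φ q) ∈ B (φ z) then (1 : ℝ) else 0) =
      (fun φ => ∑ ζ, ∑ e ∈ B ζ, if φ z = ζ ∧ φ p = e.1 ∧ φ q = e.2 then (1 : ℝ) else 0) := by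
    funext φ
    rw [Finset.sum_eq_single (φ z)]
    · have h1 : ∀ e ∈ B (φ z), (if φ z = φ z ∧ φ p = e.1 ∧ φ q = e.2 then (1 : ℝ) else 0) =
          if (φ p, φ q) = e then (1 : ℝ) else 0 := by
        intro e _
        by_cases h2 : φ p = e.1 ∧ φ q = e.2
        · rw [if_pos ⟨rfl, h2⟩, if_pos (Prod.ext h2.1 h2.2)]
        · rw [if_neg (fun h3 => h2 h3.2), if_neg]
          rintro rfl
          exact h2 ⟨rfl, rfl⟩
      rw [Finset.sum_congr rfl h1, Finset.sum_ite_eq (B (φ z)) (φ p, φ q) (fun _ => (1 : ℝ))]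
    · intro ζ _ hζ
      refine Finset.sum_eq_zero fun e _ => ?_
      rw [if_neg (fun h3 => hζ h3.1.symm)]
    · intro h1
      exact absurd (Finset.mem_univ _) h1
  rw [e1, ww_sum]
  refine Finset.sum_le_sum fun ζ _ => ?_
  rw [ww_sum]
  refine (Finset.sum_le_sum fun e _ => ww_pair h T hc hz hp hq hlp hlq hpq ζ e.1 e.2).trans ?_
  rw [Finset.sum_const, nsmul_eq_mul, mul_one]

end Pool.Agent.TTR
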