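import Pool.Agent.TTR.Wt

/-!
# Two-trees (MP_c7cb83_co), module Tm: the marginals on a triangle and on an edge
-/

set_option autoImplicit false

namespace Pool.Agent.TTR

open Finset Pool.Agent.FAN

variable {n : ℕ} {ρ σ y : ℕ → ℕ}

/-- the sum over the ordered triples -/
noncomputable def TS (T : Finset (Finset (Fin n))) (G : Fin n → Fin n → Fin n → ℝ) : ℝ :=
  ∑ u, ∑ u', ∑ u'', if ({u, u', u''} : Finset (Fin n)) ∈ T then G u u' u'' else 0

theorem ts_eq (T : Finset (Finset (Fin n))) (G : Fin n → Fin n → Fin n → ℝ) :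
    ∑ u, ∑ u', ∑ u'' ∈ lk T u u', G u u' u'' = TS T G := by
  unfold TS lk
  refine Finset.sum_congr rfl fun u _ => Finset.sum_congr rfl fun u' _ => ?_
  rw [Finset.sum_filter]

theorem ts_swap12 (T : Finset (Finset (Fin n))) (G : Fin n → Fin n → Fin n → ℝ) :
    TS T (fun a b c => G b a c) = TS T G := by
  unfold TS
  rw [Finset.sum_comm]
  refine Finset.sum_congr rfl fun u _ => Finset.sum_congr rfl fun u' _ =>
    Finset.sum_congr rfl fun u'' _ => ?_
  rw [Finset.insert_comm]

theorem ts_swap23 (T : Finset (Finset (Fin n))) (G : Fin n → Fin n → Fin n → ℝ) :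
    TS T (fun a b c => G a c b) = TS T G := by
  unfold TS
  refine Finset.sum_congr rfl fun u _ => ?_
  rw [Finset.sum_comm]
  refine Finset.sum_congr rfl fun u' _ => Finset.sum_congr rfl fun u'' _ => ?_
  rw [Finset.pair_comm]

theorem ts_rot (T : Finset (Finset (Fin n))) (G : Fin n → Fin n → Fin n → ℝ) :
    TS T (fun a b c => G b c a) = TS T G := by
  rw [ts_swap12 T (fun a b c => G a c b), ts_swap23]

theorem ts_rot' (T : Finset (Finset (Fin n))) (G : Fin n → Fin n → Fin n → ℝ) :
    TS T (fun a b c => G c a b) = TS T G := by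
  rw [ts_swap23 T (fun a b c => G b a c), ts_swap12]

theorem ts_swap13 (T : Finset (Finset (Fin n))) (G : Fin n → Fin n → Fin n → ℝ) :
    TS T (fun a b c => G c b a) = TS T G := by
  rw [ts_swap23 T (fun a b c => G b c a), ts_rot]

/-- averaging over the third vertex -/
theorem ts_avg (T : Finset (Finset (Fin n))) (G : Fin n → Fin n → Fin n → ℝ) :
    TS T (fun a b _ => (∑ t ∈ lk T a b, G a b t) / ((lk T a b).card : ℝ)) = TS T G := by
  rw [← ts_eq, ← ts_eq]
  refine Finset.sum_congr rfl fun u _ => Finset.sum_congr rfl fun u' _ => ?_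
  rw [Finset.sum_const, nsmul_eq_mul]
  rcases Nat.eq_zero_or_pos (lk T u u').card with h | h
  · rw [Finset.card_eq_zero.1 h]
    simp
  · have h1 : ((lk T u u').card : ℝ) ≠ 0 := by exact_mod_cast h.ne'
    rw [mul_div_cancel₀ _ h1]

theorem ts_edge (T : Finset (Finset (Fin n))) (ζ : Fin n) (g : Fin n → ℝ) :
    TS T (fun a b _ => if a = ζ then g b else 0) = ∑ u, ((lk T ζ u).card : ℝ) * g u := by
  rw [← ts_eq]
  rw [Finset.sum_eq_single ζ]
  · refine Finset.sum_congr rfl fun u' _ => ?_
    rw [if_pos rfl, Finset.sum_const, nsmul_eq_mul]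
  · intro b _ hb
    refine Finset.sum_eq_zero fun u _ => Finset.sum_eq_zero fun u' _ => ?_
    rw [if_neg hb]
  · intro h
    exact absurd (Finset.mem_univ _) h

/-- the marginal on a triangle is at most one -/
theorem tm (h : TT ρ σ y) (T : Finset (Finset (Fin n))) (N : ℕ) : ∀ {v : ℕ}, v ≤ N + 2 →
    ∀ {G : Fin n → Fin n → Fin n → ℝ}, (∀ a b c, 0 ≤ G a b c) →
    WW T ρ σ y N (fun φ => G (φ v) (φ (ρ v)) (φ (σ v))) ≤ TS T G := by
  induction N with
  | zero =>
    intro v hv G hG
    have h2 : v = 0 ∨ v = 1 ∨ v = 2 := by omega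
    rcases h2 with rfl | rfl | rfl
    · rw [h.r0, h.s0, WW]
      exact (ts_eq T G).le
    · rw [h.r1, h.s1, WW]
      exact ((ts_eq T (fun a b c => G b c a)).trans (ts_rot T G)).le
    · rw [h.r2, h.s2, WW]
      exact ((ts_eq T (fun a b c => G c a b)).trans (ts_rot' T G)).le
  | succ N ih =>
    intro v hv G hG
    rcases Nat.lt_or_ge v (N + 3) with h1 | h1
    · obtain ⟨h2, h3⟩ := h.rs_le (v := v) (N := N) (by omega)
      refine (ww_step h T N (fun φ => hG _ _ _) fun φ x => ?_).trans (ih (by omega) hG)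
      rw [Function.update_of_ne (by omega), Function.update_of_ne (by omega),
        Function.update_of_ne (by omega)]
    · have h2 : v = N + 3 := by omega
      subst h2
      obtain ⟨h3, h4, h5⟩ := h.ylt (v := N + 3) (by omega)
      obtain ⟨h6, h7⟩ := h.rlt (v := N + 3) (by omega)
      rw [WW]
      rcases h.eq (N + 3) (by omega) with ⟨h8, h9⟩ | ⟨h8, h9⟩
      · have h10 : WW T ρ σ y N (fun φ => (∑ t ∈ Ch T ρ σ y φ (N + 3),
            G (Function.update φ (N + 3) t (N + 3)) (Function.update φ (N + 3) t (ρ (N + 3)))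
              (Function.update φ (N + 3) t (σ (N + 3)))) /
              ((lk T (φ (y (N + 3))) (φ (ρ (y (N + 3))))).card : ℝ)) ≤
            WW T ρ σ y N (fun φ => (fun a b _ => (∑ t ∈ lk T a b, G t a b) / ((lk T a b).card : ℝ))
              (φ (y (N + 3))) (φ (ρ (y (N + 3)))) (φ (σ (y (N + 3))))) := by
          refine ww_mono h T N fun φ _ => ?_
          refine div_le_div_of_nonneg_right ?_ (Nat.cast_nonneg _)
          rw [h8, h9]
          have h11 : ∀ t ∈ Ch T ρ σ y φ (N + 3), G (Function.update φ (N + 3) t (N + 3))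
              (Function.update φ (N + 3) t (y (N + 3))) (Function.update φ (N + 3) t (ρ (y (N + 3)))) =
              G t (φ (y (N + 3))) (φ (ρ (y (N + 3)))) := by
            intro t _
            rw [Function.update_self, Function.update_of_ne (by omega), Function.update_of_ne (by omega)]
          rw [Finset.sum_congr rfl h11]
          exact Finset.sum_le_sum_of_subset_of_nonneg (Finset.filter_subset _ _) fun x _ _ => hG _ _ _
        refine h10.trans ((ih (v := y (N + 3)) (by omega)
          (G := fun a b _ => (∑ t ∈ lk T a b, G t a b) / ((lk T a b).card : ℝ)) fun a b c => div_nonneg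
          (Finset.sum_nonneg fun x _ => hG _ _ _) (Nat.cast_nonneg _)).trans ?_)
        rw [ts_avg T (fun a b t => G t a b), ts_rot' T G]
      · have h10 : WW T ρ σ y N (fun φ => (∑ t ∈ Ch T ρ σ y φ (N + 3),
            G (Function.update φ (N + 3) t (N + 3)) (Function.update φ (N + 3) t (ρ (N + 3)))
              (Function.update φ (N + 3) t (σ (N + 3)))) /
              ((lk T (φ (y (N + 3))) (φ (ρ (y (N + 3))))).card : ℝ)) ≤
            WW T ρ σ y N (fun φ => (fun a b _ => (∑ t ∈ lk T a b, G t b a) / ((lk T a b).card : ℝ))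
              (φ (y (N + 3))) (φ (ρ (y (N + 3)))) (φ (σ (y (N + 3))))) := by
          refine ww_mono h T N fun φ _ => ?_
          refine div_le_div_of_nonneg_right ?_ (Nat.cast_nonneg _)
          rw [h8, h9]
          have h11 : ∀ t ∈ Ch T ρ σ y φ (N + 3), G (Function.update φ (N + 3) t (N + 3))
              (Function.update φ (N + 3) t (ρ (y (N + 3)))) (Function.update φ (N + 3) t (y (N + 3))) =
              G t (φ (ρ (y (N + 3)))) (φ (y (N + 3))) := by
            intro t _
            rw [Function.update_self, Function.update_of_ne (by omega), Function.update_of_ne (by omega)]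
          rw [Finset.sum_congr rfl h11]
          exact Finset.sum_le_sum_of_subset_of_nonneg (Finset.filter_subset _ _) fun x _ _ => hG _ _ _
        refine h10.trans ((ih (v := y (N + 3)) (by omega)
          (G := fun a b _ => (∑ t ∈ lk T a b, G t b a) / ((lk T a b).card : ℝ)) fun a b c => div_nonneg
          (Finset.sum_nonneg fun x _ => hG _ _ _) (Nat.cast_nonneg _)).trans ?_)
        rw [ts_avg T (fun a b t => G t b a)]
        exact (ts_swap13 T G).le

/-- `p` is a vertex of the link tree of `z` -/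
def Lk (ρ σ : ℕ → ℕ) (z p : ℕ) : Prop := p = ρ z ∨ p = σ z ∨ (3 ≤ p ∧ (ρ p = z ∨ σ p = z))

/-- the marginal on an edge is at most the codegree -/
theorem em (h : TT ρ σ y) (T : Finset (Finset (Fin n))) {N z p : ℕ} (hz : z ≤ N + 2) (hp : p ≤ N + 2)
    (hl : Lk ρ σ z p) (ζ : Fin n) {g : Fin n → ℝ} (hg : ∀ u, 0 ≤ g u) :
    WW T ρ σ y N (fun φ => if φ z = ζ then g (φ p) else 0) ≤ ∑ u, ((lk T ζ u).card : ℝ) * g u := by
  have hnn : ∀ a b : Fin n, 0 ≤ (if a = ζ then g b else 0) := by
    intro a b
    split_ifs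
    · exact hg b
    · exact le_rfl
  rcases hl with rfl | rfl | ⟨h3, rfl | rfl⟩
  · refine (tm h T N hz (G := fun a b _ => if a = ζ then g b else 0) fun a b c => hnn a b).trans ?_
    rw [ts_edge]
  · refine (tm h T N hz (G := fun a _ c => if a = ζ then g c else 0) fun a b c => hnn a c).trans ?_
    rw [ts_swap23 T (fun a b _ => if a = ζ then g b else 0), ts_edge]
  · refine (tm h T N hp (G := fun a b _ => if b = ζ then g a else 0) fun a b c => hnn b a).trans ?_
    rw [ts_swap12 T (fun a b _ => if a = ζ then g b else 0), ts_edge]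
  · refine (tm h T N hp (G := fun a _ c => if c = ζ then g a else 0) fun a b c => hnn c a).trans ?_
    rw [ts_rot' T (fun a b _ => if a = ζ then g b else 0), ts_edge]

end Pool.Agent.TTR
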