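import Pool.Agent.FAN.Ca

/-!
# Two-trees (MP_c7cb83_co), module Wt: the weights on homomorphisms of a 2-tree

`T` is a system of triples on `Fin n`.  A 2-tree is given by functions `ρ`, `σ`, `y`: the vertices
`v`, `ρ v`, `σ v` form a triangle, the first triangle is `0, 1, 2` (cyclically `ρ 0 = 1`, `ρ 1 = 2`,
`ρ 2 = 0`), and every vertex `v ≥ 3` is attached to the edge `y v`, `ρ (y v)`, so that
`{ρ v, σ v} = {y v, ρ (y v)}`.  `WW T ρ σ y N f` is the sum of `f` over the injective maps `φ` of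
`0, .., N + 2` which send the triangles to triples of `T` and satisfy
`codeg (φ (ρ (y v))) (φ v) ≤ codeg (φ (ρ (y v))) (φ (σ (y v)))`, with the weight
`∏ 1 / codeg (φ (y v)) (φ (ρ (y v)))`.
-/

set_option autoImplicit false

namespace Pool.Agent.TTR

open Finset Pool.Agent.FAN

/-- the combinatorial data of a 2-tree with at most one triangle all of whose edges are used later -/
structure TT (ρ σ y : ℕ → ℕ) : Prop where
  r0 : ρ 0 = 1
  s0 : σ 0 = 2
  r1 : ρ 1 = 2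
  s1 : σ 1 = 0
  r2 : ρ 2 = 0
  s2 : σ 2 = 1
  lt : ∀ v, 3 ≤ v → y v < v
  eq : ∀ v, 3 ≤ v → (ρ v = y v ∧ σ v = ρ (y v)) ∨ (ρ v = ρ (y v) ∧ σ v = y v)

variable {n : ℕ} {ρ σ y : ℕ → ℕ}

theorem TT.bd (h : TT ρ σ y) (v : ℕ) : (ρ v ≤ 2 ∨ ρ v < v) ∧ (σ v ≤ 2 ∨ σ v < v) := by
  induction v using Nat.strong_induction_on with
  | _ v ih =>
    rcases Nat.lt_or_ge v 3 with h1 | h1
    · have h2 : v = 0 ∨ v = 1 ∨ v = 2 := by omega
      rcases h2 with rfl | rfl | rfl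
      · rw [h.r0, h.s0]; omega
      · rw [h.r1, h.s1]; omega
      · rw [h.r2, h.s2]; omega
    · have h2 := h.lt v h1
      obtain ⟨h3, -⟩ := ih (y v) h2
      rcases h.eq v h1 with ⟨h4, h5⟩ | ⟨h4, h5⟩
      · rw [h4, h5]; omega
      · rw [h4, h5]; omega

theorem TT.ylt (h : TT ρ σ y) {v : ℕ} (hv : 3 ≤ v) : y v < v ∧ ρ (y v) < v ∧ σ (y v) < v := by
  have h1 := h.lt v hv
  obtain ⟨h2, h3⟩ := h.bd (y v)
  omega

theorem TT.rlt (h : TT ρ σ y) {v : ℕ} (hv : 3 ≤ v) : ρ v < v ∧ σ v < v := by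
  obtain ⟨h2, h3⟩ := h.bd v
  omega

theorem TT.rs_le (h : TT ρ σ y) {v N : ℕ} (hv : v ≤ N + 2) : ρ v ≤ N + 2 ∧ σ v ≤ N + 2 := by
  obtain ⟨h2, h3⟩ := h.bd v
  omega

/-- the map on the first triangle -/
def b3 (u u' u'' : Fin n) : ℕ → Fin n := fun i => if i = 0 then u else if i = 1 then u' else u''

theorem b3_0 (u u' u'' : Fin n) : b3 u u' u'' 0 = u := rfl

theorem b3_1 (u u' u'' : Fin n) : b3 u u' u'' 1 = u' := rfl

theorem b3_2 (u u' u'' : Fin n) : b3 u u' u'' 2 = u'' := rfl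

/-- the choices for the vertex `v` -/
def Ch (T : Finset (Finset (Fin n))) (ρ σ y : ℕ → ℕ) (φ : ℕ → Fin n) (v : ℕ) : Finset (Fin n) :=
  (lk T (φ (y v)) (φ (ρ (y v)))).filter (fun t =>
    (lk T (φ (ρ (y v))) t).card ≤ (lk T (φ (ρ (y v))) (φ (σ (y v)))).card ∧ ∀ i < v, t ≠ φ i)

/-- the weighted sum over the admissible maps of `0, .., N + 2` -/
noncomputable def WW (T : Finset (Finset (Fin n))) (ρ σ y : ℕ → ℕ) : ℕ → ((ℕ → Fin n) → ℝ) → ℝ
  | 0, f => ∑ u, ∑ u', ∑ u'' ∈ lk T u u', f (b3 u u' u'')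
  | (N + 1), f => WW T ρ σ y N (fun φ =>
      (∑ t ∈ Ch T ρ σ y φ (N + 3), f (Function.update φ (N + 3) t)) /
        ((lk T (φ (y (N + 3))) (φ (ρ (y (N + 3))))).card : ℝ))

/-- admissible maps -/
def Vd (T : Finset (Finset (Fin n))) (ρ σ y : ℕ → ℕ) (N : ℕ) (φ : ℕ → Fin n) : Prop :=
  φ 2 ∈ lk T (φ 0) (φ 1) ∧ ∀ v, 3 ≤ v → v ≤ N + 2 → φ v ∈ Ch T ρ σ y φ v

theorem ch_congr (h : TT ρ σ y) (T : Finset (Finset (Fin n))) {φ ψ : ℕ → Fin n} {v : ℕ} (hv : 3 ≤ v)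
    (hφ : ∀ i < v, φ i = ψ i) : Ch T ρ σ y φ v = Ch T ρ σ y ψ v := by
  obtain ⟨h1, h2, h3⟩ := h.ylt hv
  unfold Ch
  rw [hφ _ h1, hφ _ h2, hφ _ h3]
  ext t
  rw [Finset.mem_filter, Finset.mem_filter]
  refine and_congr_right fun _ => and_congr_right fun _ => ?_
  constructor
  · intro h4 i hi
    rw [← hφ i hi]
    exact h4 i hi
  · intro h4 i hi
    rw [hφ i hi]
    exact h4 i hi

theorem vd_update (h : TT ρ σ y) {T : Finset (Finset (Fin n))} {φ : ℕ → Fin n} {N : ℕ}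
    (hφ : Vd T ρ σ y N φ) {t : Fin n} (ht : t ∈ Ch T ρ σ y φ (N + 3)) :
    Vd T ρ σ y (N + 1) (Function.update φ (N + 3) t) := by
  have hu : ∀ i < N + 3, Function.update φ (N + 3) t i = φ i := fun i hi =>
    Function.update_of_ne (by omega) _ _
  refine ⟨?_, fun v hv hvN => ?_⟩
  · rw [hu 0 (by omega), hu 1 (by omega), hu 2 (by omega)]
    exact hφ.1
  · rw [ch_congr h T hv (ψ := φ) fun i hi => hu i (by omega)]
    rcases Nat.lt_or_ge v (N + 3) with h2 | h2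
    · rw [hu v h2]
      exact hφ.2 v hv (by omega)
    · have h3 : v = N + 3 := by omega
      subst h3
      rw [Function.update_self]
      exact ht

theorem ww_mono (h : TT ρ σ y) (T : Finset (Finset (Fin n))) (N : ℕ) {f g : (ℕ → Fin n) → ℝ}
    (hfg : ∀ φ, Vd T ρ σ y N φ → f φ ≤ g φ) : WW T ρ σ y N f ≤ WW T ρ σ y N g := by
  induction N generalizing f g with
  | zero =>
    unfold WW
    refine Finset.sum_le_sum fun u _ => Finset.sum_le_sum fun u' _ => Finset.sum_le_sum fun u'' hu => ?_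
    refine hfg _ ⟨hu, fun v hv hvN => ?_⟩
    omega
  | succ N ih =>
    unfold WW
    refine ih fun φ hφ => ?_
    refine div_le_div_of_nonneg_right (Finset.sum_le_sum fun x hx => ?_) (Nat.cast_nonneg _)
    exact hfg _ (vd_update h hφ hx)

theorem ww_zero (T : Finset (Finset (Fin n))) (ρ σ y : ℕ → ℕ) (N : ℕ) :
    WW T ρ σ y N (fun _ => 0) = 0 := by
  induction N with
  | zero => simp [WW]
  | succ N ih =>
    unfold WW
    simp only [Finset.sum_const_zero, zero_div]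
    exact ih

theorem ww_add (T : Finset (Finset (Fin n))) (ρ σ y : ℕ → ℕ) (N : ℕ) (f g : (ℕ → Fin n) → ℝ) :
    WW T ρ σ y N (fun φ => f φ + g φ) = WW T ρ σ y N f + WW T ρ σ y N g := by
  induction N generalizing f g with
  | zero => simp [WW, Finset.sum_add_distrib]
  | succ N ih =>
    unfold WW
    rw [← ih]
    simp only [Finset.sum_add_distrib, add_div]

theorem ww_mul (T : Finset (Finset (Fin n))) (ρ σ y : ℕ → ℕ) (N : ℕ) (c : ℝ) (f : (ℕ → Fin n) → ℝ) :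
    WW T ρ σ y N (fun φ => c * f φ) = c * WW T ρ σ y N f := by
  induction N generalizing f with
  | zero =>
    unfold WW
    simp only [Finset.mul_sum]
  | succ N ih =>
    unfold WW
    rw [← ih]
    congr 1
    funext φ
    rw [← Finset.mul_sum, mul_div_assoc]

theorem ww_sum (T : Finset (Finset (Fin n))) (ρ σ y : ℕ → ℕ) (N : ℕ) {ι : Type} (s : Finset ι)
    (f : ι → (ℕ → Fin n) → ℝ) :
    WW T ρ σ y N (fun φ => ∑ i ∈ s, f i φ) = ∑ i ∈ s, WW T ρ σ y N (f i) := by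
  classical
  induction s using Finset.induction_on with
  | empty =>
    simp only [Finset.sum_empty]
    exact ww_zero T ρ σ y N
  | insert a s ha ih =>
    rw [Finset.sum_insert ha, ← ih, ← ww_add]
    congr 1
    funext φ
    rw [Finset.sum_insert ha]

theorem ww_nonneg (h : TT ρ σ y) (T : Finset (Finset (Fin n))) (N : ℕ) {f : (ℕ → Fin n) → ℝ}
    (hf : ∀ φ, 0 ≤ f φ) : 0 ≤ WW T ρ σ y N f := by
  rw [← ww_zero T ρ σ y N]
  exact ww_mono h T N fun φ _ => hf φ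

theorem ch_card (T : Finset (Finset (Fin n))) (ρ σ y : ℕ → ℕ) (φ : ℕ → Fin n) (v : ℕ) :
    (Ch T ρ σ y φ v).card ≤ (lk T (φ (y v)) (φ (ρ (y v)))).card := Finset.card_filter_le _ _

/-- the last coordinate is summed out -/
theorem ww_step (h : TT ρ σ y) (T : Finset (Finset (Fin n))) (N : ℕ) {f : (ℕ → Fin n) → ℝ}
    (hf : ∀ φ, 0 ≤ f φ) (hd : ∀ φ x, f (Function.update φ (N + 3) x) = f φ) :
    WW T ρ σ y (N + 1) f ≤ WW T ρ σ y N f := by
  rw [WW]
  refine ww_mono h T N fun φ _ => ?_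
  rw [Finset.sum_congr rfl fun x _ => hd φ x, Finset.sum_const, nsmul_eq_mul]
  have h2 : ((Ch T ρ σ y φ (N + 3)).card : ℝ) ≤
      ((lk T (φ (y (N + 3))) (φ (ρ (y (N + 3))))).card : ℝ) := by
    exact_mod_cast ch_card T ρ σ y φ (N + 3)
  refine div_le_of_le_mul₀ (Nat.cast_nonneg _) (hf φ) ?_
  rw [mul_comm]
  exact mul_le_mul_of_nonneg_left h2 (hf φ)

end Pool.Agent.TTR
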